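import Pool.Agent.Lib.MP_bf61d2_nt.Perm.Defs

set_option autoImplicit false

/-!
Embeddings of an intermediate field `F` of a Galois extension `M / K` in `M` are the cosets of the
fixing subgroup of `F`, compatibly with the actions of the Galois group.
-/

namespace Pool.Agent.Lib.MP_bf61d2_nt.Perm

/-- Restriction of an automorphism to an intermediate field, constant on the cosets of the fixing
subgroup. -/
noncomputable def FixField.emb {K M : Type*} [Field K] [Field M] [Algebra K M]
    (F : IntermediateField K M) : Gal(M/K) ⧸ F.fixingSubgroup → (F →ₐ[K] M) :=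
  Quotient.lift (fun σ : Gal(M/K) => (σ : M →ₐ[K] M).comp F.val) (by
    intro a b hab
    have h : a⁻¹ * b ∈ F.fixingSubgroup := QuotientGroup.leftRel_apply.mp hab
    ext x
    have := (IntermediateField.mem_fixingSubgroup_iff F (a⁻¹ * b)).1 h x x.2
    have h2 : a ((a⁻¹ * b) (x : M)) = a (x : M) := by rw [this]
    rw [← AlgEquiv.mul_apply, mul_inv_cancel_left] at h2
    simp [h2])

theorem FixField.emb_mk {K M : Type*} [Field K] [Field M] [Algebra K M]
    (F : IntermediateField K M) (σ : Gal(M/K)) :
    FixField.emb F (QuotientGroup.mk σ) = (σ : M →ₐ[K] M).comp F.val := rfl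

theorem FixField.emb_injective {K M : Type*} [Field K] [Field M] [Algebra K M]
    (F : IntermediateField K M) : Function.Injective (FixField.emb F) := by
  intro x y hxy
  induction x using QuotientGroup.induction_on with
  | H a =>
  induction y using QuotientGroup.induction_on with
  | H b =>
  rw [FixField.emb_mk, FixField.emb_mk] at hxy
  rw [QuotientGroup.eq, IntermediateField.mem_fixingSubgroup_iff]
  intro x hx
  have h : a x = b x := by
    have := congrArg (fun φ : F →ₐ[K] M => φ ⟨x, hx⟩) hxy
    simpa using this
  rw [AlgEquiv.mul_apply, ← h, ← AlgEquiv.mul_apply, inv_mul_cancel, AlgEquiv.one_apply]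

theorem FixField.emb_surjective {K M : Type*} [Field K] [Field M] [Algebra K M]
    [FiniteDimensional K M] [IsGalois K M]
    (F : IntermediateField K M) : Function.Surjective (FixField.emb F) := by
  intro φ
  let ψ : M →ₐ[K] M := φ.liftNormal M
  refine ⟨QuotientGroup.mk (AlgEquiv.ofBijective ψ (Algebra.IsAlgebraic.algHom_bijective ψ)), ?_⟩
  rw [FixField.emb_mk]
  ext x
  have := AlgHom.liftNormal_commutes φ M x
  simpa [ψ] using this

theorem FixField.emb_smul {K M : Type*} [Field K] [Field M] [Algebra K M]
    (F : IntermediateField K M) (g : Gal(M/K)) (x : Gal(M/K) ⧸ F.fixingSubgroup) :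
    FixField.emb F (g • x) = (g : M →ₐ[K] M).comp (FixField.emb F x) := by
  induction x using QuotientGroup.induction_on with
  | H a =>
  rw [FixField.emb_mk]
  rfl

theorem FixField.fx_eq {K M : Type*} [Field K] [Field M] [Algebra K M] [FiniteDimensional K M]
    [IsGalois K M] (F : IntermediateField K M) (g : Gal(M/K)) :
    fx F g = fp (Gal(M/K) ⧸ F.fixingSubgroup) g := by
  symm
  have hb : Function.Bijective (FixField.emb F) :=
    ⟨FixField.emb_injective F, FixField.emb_surjective F⟩
  refine Nat.card_congr ((Equiv.ofBijective (FixField.emb F) hb).subtypeEquiv ?_)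
  intro x
  show g • x = x ↔ (g : M →ₐ[K] M).comp (FixField.emb F x) = FixField.emb F x
  rw [← FixField.emb_smul, (FixField.emb_injective F).eq_iff]

/-- B2. For the fixed field of `H`, embeddings fixed by `g` are counted by the permutation character
of `G ⧸ H`. -/
theorem fx_fixedField {K M : Type*} [Field K] [Field M] [Algebra K M] [FiniteDimensional K M]
    [IsGalois K M] (H : Subgroup Gal(M/K)) (g : Gal(M/K)) :
    fx (IntermediateField.fixedField H) g = fp (Gal(M/K) ⧸ H) g := by
  rw [FixField.fx_eq, IntermediateField.fixingSubgroup_fixedField]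

/-- B4. `fx F` is a fixed point count of a finite `G`-set. -/
theorem exists_fp_eq_fx {K M : Type*} [Field K] [Field M] [Algebra K M] [FiniteDimensional K M]
    [IsGalois K M] (F : IntermediateField K M) :
    ∃ (H : Subgroup Gal(M/K)), ∀ g, fx F g = fp (Gal(M/K) ⧸ H) g :=
  ⟨F.fixingSubgroup, fun g => FixField.fx_eq F g⟩

end Pool.Agent.Lib.MP_bf61d2_nt.Perm
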