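import Pool.Agent.Lib.MP_bf61d2_nt.Perm.Defs

set_option autoImplicit false

/-!
Functions of permutation characters of a finite group are linear combinations of transitive
permutation characters.
-/

namespace Pool.Agent.Lib.MP_bf61d2_nt.Perm

namespace GroupAlg

open MulAction

/-! ### Fixed points of sums and products of sets with an action -/

/-- The fixed points of `g` in the orbit of the point `x`. -/
lemma card_orbit_fixed {G : Type*} [Group G] {X : Type*} [MulAction G X] (g : G)
    (ω : orbitRel.Quotient G X) :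
    Nat.card {x : {x : X // g • x = x} // (Quotient.mk'' x.1 : orbitRel.Quotient G X) = ω} =
      fp (G ⧸ stabilizer G (Quotient.out ω)) g := by
  unfold fp
  symm
  have hq : (Quotient.mk'' (Quotient.out ω) : orbitRel.Quotient G X) = ω := Quotient.out_eq' ω
  refine Nat.card_congr (Equiv.ofBijective
    (fun y => ⟨⟨ofQuotientStabilizer G (Quotient.out ω) y.1, ?_⟩, ?_⟩) ⟨?_, ?_⟩)
  · rw [← ofQuotientStabilizer_smul, y.2]
  · obtain ⟨y, hy⟩ := y
    induction y using QuotientGroup.induction_on with
    | H a =>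
      simp only [ofQuotientStabilizer_mk]
      rw [← hq]
      rw [Quotient.eq'']
      exact ⟨a, by rw [hq]⟩
  · intro y z hyz
    have := congrArg (fun u => (u.1.1 : X)) hyz
    exact Subtype.ext (injective_ofQuotientStabilizer G _ this)
  · rintro ⟨⟨x, hx⟩, hxω⟩
    have h1 : (Quotient.mk'' x : orbitRel.Quotient G X) = Quotient.mk'' (Quotient.out ω) := by
      rw [hq]; exact hxω
    rw [Quotient.eq''] at h1
    obtain ⟨a, ha⟩ := h1
    refine ⟨⟨(a : G ⧸ stabilizer G (Quotient.out ω)), ?_⟩, ?_⟩
    · apply injective_ofQuotientStabilizer G (Quotient.out ω)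
      rw [ofQuotientStabilizer_smul, ofQuotientStabilizer_mk]
      have ha' : a • Quotient.out ω = x := ha
      rw [ha', hx]
    · apply Subtype.ext
      apply Subtype.ext
      exact ha

/-- The permutation character of a finite set is the sum of those of its orbits. -/
lemma fp_eq_sum {G : Type*} [Group G] {X : Type*} [MulAction G X] [Finite X]
    [Fintype (orbitRel.Quotient G X)] (g : G) :
    fp X g = ∑ ω : orbitRel.Quotient G X, fp (G ⧸ stabilizer G (Quotient.out ω)) g := by
  classical
  have h : fp X g = Nat.card (Σ ω : orbitRel.Quotient G X,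
      {x : {x : X // g • x = x} // (Quotient.mk'' x.1 : orbitRel.Quotient G X) = ω}) := by
    unfold fp
    exact Nat.card_congr (Equiv.sigmaFiberEquiv
      (fun x : {x : X // g • x = x} => (Quotient.mk'' x.1 : orbitRel.Quotient G X))).symm
  rw [h, Nat.card_sigma]
  exact Finset.sum_congr rfl fun ω _ => card_orbit_fixed g ω

/-- Fixed points of a power product. -/
lemma fp_pi {G : Type*} [Group G] {n : ℕ} (X : Fin n → Type*) [∀ i, MulAction G (X i)]
    (k : Fin n → ℕ) (g : G) :
    fp (∀ i, Fin (k i) → X i) g = ∏ i, fp (X i) g ^ k i := by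
  unfold fp
  have h : Nat.card {x : ∀ i, Fin (k i) → X i // g • x = x} =
      Nat.card (∀ i, Fin (k i) → {x : X i // g • x = x}) := by
    refine Nat.card_congr
      { toFun := fun x i j => ⟨x.1 i j, congrFun (congrFun x.2 i) j⟩
        invFun := fun x => ⟨fun i j => (x i j).1, funext fun i => funext fun j => (x i j).2⟩
        left_inv := fun x => rfl
        right_inv := fun x => rfl }
  rw [h, Nat.card_pi]
  refine Finset.prod_congr rfl fun i _ => ?_
  rw [Nat.card_fun, Nat.card_fin]

section

variable {G : Type*} [Group G] [Finite G] {P : (G → ℝ) → Prop}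

omit [Group G] [Finite G] in
lemma P_sum (hadd : ∀ f g, P f → P g → P (f + g)) (h0 : P 0) {ι : Type*} (s : Finset ι)
    (F : ι → G → ℝ) (hF : ∀ i ∈ s, P (F i)) : P (∑ i ∈ s, F i) := by
  classical
  induction s using Finset.induction_on with
  | empty => simpa using h0
  | insert a s ha ih =>
    rw [Finset.sum_insert ha]
    exact hadd _ _ (hF a (Finset.mem_insert_self a s))
      (ih fun i hi => hF i (Finset.mem_insert_of_mem hi))

lemma P_fp (hadd : ∀ f g, P f → P g → P (f + g)) (hsmul : ∀ (a : ℝ) (f : G → ℝ), P f → P (a • f))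
    (hP : ∀ H : Subgroup G, P fun g => (fp (G ⧸ H) g : ℝ)) (X : Type*) [MulAction G X]
    [Finite X] : P fun g : G => (fp X g : ℝ) := by
  classical
  have h0 : P 0 := by
    have := hsmul 0 _ (hP ⊤)
    rwa [zero_smul] at this
  haveI : Fintype (orbitRel.Quotient G X) := Fintype.ofFinite _
  have h : (fun g : G => (fp X g : ℝ)) = ∑ ω : orbitRel.Quotient G X,
      fun g : G => (fp (G ⧸ stabilizer G (Quotient.out ω)) g : ℝ) := by
    funext g
    rw [fp_eq_sum g, Finset.sum_apply]
    push_cast
    rfl
  rw [h]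
  exact P_sum hadd h0 _ _ fun ω _ => hP _

lemma P_poly (hadd : ∀ f g, P f → P g → P (f + g))
    (hsmul : ∀ (a : ℝ) (f : G → ℝ), P f → P (a • f))
    (hP : ∀ H : Subgroup G, P fun g => (fp (G ⧸ H) g : ℝ))
    {n : ℕ} (X : Fin n → Type*) [∀ i, MulAction G (X i)] [∀ i, Finite (X i)]
    (p : MvPolynomial (Fin n) ℝ) :
    P fun g : G => MvPolynomial.eval (fun i => (fp (X i) g : ℝ)) p := by
  classical
  have h0 : P 0 := by
    have := hsmul 0 _ (hP ⊤)
    rwa [zero_smul] at this
  have h : (fun g : G => MvPolynomial.eval (fun i => (fp (X i) g : ℝ)) p) =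
      ∑ d ∈ p.support, (p.coeff d) • fun g : G => (fp (∀ i, Fin (d i) → X i) g : ℝ) := by
    funext g
    rw [MvPolynomial.eval_eq', Finset.sum_apply]
    refine Finset.sum_congr rfl fun d _ => ?_
    rw [Pi.smul_apply, smul_eq_mul, fp_pi X (fun i => d i) g]
    push_cast
    rfl
  rw [h]
  exact P_sum hadd h0 _ _ fun d _ => hsmul _ _ (P_fp hadd hsmul hP _)

end

/-- Interpolation. -/
lemma exists_poly {G : Type*} [Finite G] {n : ℕ} (v : G → Fin n → ℝ) (f : G → ℝ)
    (hf : ∀ g h, v g = v h → f g = f h) :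
    ∃ p : MvPolynomial (Fin n) ℝ, ∀ g, MvPolynomial.eval (v g) p = f g := by
  classical
  have : Fintype G := Fintype.ofFinite G
  set S : Finset (Fin n → ℝ) := Finset.univ.image v with hS
  have hq : ∀ s t : Fin n → ℝ, s ≠ t → ∃ q : MvPolynomial (Fin n) ℝ,
      MvPolynomial.eval s q = 1 ∧ MvPolynomial.eval t q = 0 := by
    intro s t hst
    obtain ⟨i, hi⟩ := Function.ne_iff.1 hst
    refine ⟨MvPolynomial.C ((s i - t i)⁻¹) * (MvPolynomial.X i - MvPolynomial.C (t i)), ?_, ?_⟩
    · simp only [map_mul, map_sub, MvPolynomial.eval_C, MvPolynomial.eval_X]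
      exact inv_mul_cancel₀ (sub_ne_zero.2 hi)
    · simp
  choose! q hq1 hq2 using hq
  have hex : ∀ s ∈ S, ∃ g, v g = s := by
    intro s hs
    obtain ⟨g, -, hg⟩ := Finset.mem_image.1 hs
    exact ⟨g, hg⟩
  rcases isEmpty_or_nonempty G with hG | hG
  · exact ⟨0, fun g => (hG.false g).elim⟩
  choose! c hc using hex
  refine ⟨∑ s ∈ S, MvPolynomial.C (f (c s)) * ∏ t ∈ S.erase s, q s t, ?_⟩
  intro g
  have hgS : v g ∈ S := Finset.mem_image_of_mem _ (Finset.mem_univ g)
  rw [map_sum, Finset.sum_eq_single (v g)]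
  · rw [map_mul, MvPolynomial.eval_C, map_prod, Finset.prod_eq_one, mul_one]
    · exact hf _ _ (hc _ hgS)
    · intro t ht
      exact hq1 _ _ (Finset.ne_of_mem_erase ht).symm
  · intro s _ hs
    rw [map_mul, map_prod, Finset.prod_eq_zero (Finset.mem_erase.2 ⟨hs.symm, hgS⟩), mul_zero]
    exact hq2 _ _ hs
  · intro h
    exact (h hgS).elim

end GroupAlg

/-- A property of functions on a finite group that is closed under sums and scalars and holds for
the permutation characters of all `G ⧸ H` holds for every function of finitely many permutation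
characters. -/
theorem closure_perm {G : Type*} [Group G] [Finite G] (P : (G → ℝ) → Prop)
    (hadd : ∀ f g, P f → P g → P (f + g)) (hsmul : ∀ (a : ℝ) (f : G → ℝ), P f → P (a • f))
    (hP : ∀ H : Subgroup G, P fun g => (fp (G ⧸ H) g : ℝ))
    {n : ℕ} (X : Fin n → Type*) [∀ i, MulAction G (X i)] [∀ i, Finite (X i)] (f : G → ℝ)
    (hf : ∀ g h : G, (∀ i, fp (X i) g = fp (X i) h) → f g = f h) : P f := by
  obtain ⟨p, hp⟩ := GroupAlg.exists_poly (fun g i => (fp (X i) g : ℝ)) f (by
    intro g h hgh
    refine hf g h fun i => ?_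
    have := congrFun hgh i
    exact_mod_cast this)
  have h := GroupAlg.P_poly hadd hsmul hP X p
  have he : (fun g => MvPolynomial.eval (fun i => (fp (X i) g : ℝ)) p) = f := funext hp
  rwa [he] at h

/-- The mean of a transitive permutation character is `1`. -/
theorem sum_fp_quotient {G : Type*} [Group G] [Fintype G] (H : Subgroup G) :
    ∑ g : G, fp (G ⧸ H) g = Fintype.card G := by
  classical
  haveI : Finite (G ⧸ H) := Quotient.finite _
  haveI : Fintype (G ⧸ H) := Fintype.ofFinite _
  haveI : ∀ a : G, Fintype (MulAction.fixedBy (G ⧸ H) a) := fun a => Fintype.ofFinite _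
  haveI : Fintype (MulAction.orbitRel.Quotient G (G ⧸ H)) := Fintype.ofFinite _
  have h := MulAction.sum_card_fixedBy_eq_card_orbits_mul_card_group G (G ⧸ H)
  have h1 : Fintype.card (MulAction.orbitRel.Quotient G (G ⧸ H)) = 1 := by
    rw [Fintype.card_eq_one_iff]
    refine ⟨Quotient.mk'' ((1 : G) : G ⧸ H), fun y => ?_⟩
    induction y using Quotient.inductionOn' with
    | h x =>
      rw [Quotient.eq'']
      exact MulAction.exists_smul_eq G ((1 : G) : G ⧸ H) x
  have h2 : ∑ g : G, fp (G ⧸ H) g = ∑ a : G, Fintype.card (MulAction.fixedBy (G ⧸ H) a) := by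
    refine Finset.sum_congr rfl fun a _ => ?_
    unfold fp
    rw [← Nat.card_eq_fintype_card]
    rfl
  rw [h2, h]
  erw [h1]
  rw [one_mul]

end Pool.Agent.Lib.MP_bf61d2_nt.Perm
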