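import Pool.Agent.Lib.MP_bf61d2_nt.Perm.Regroup

set_option autoImplicit false

/-!
Traces of Frobenius under base change, at the places of degree one.
-/

namespace Pool.Agent.Lib.MP_bf61d2_nt.Perm

open NumberField IsDedekindDomain IsDedekindDomain.HeightOneSpectrum Filter Topology
  WeierstrassCurve WeierstrassCurve.Affine IsLocalRing

/-- The number of points is invariant under field isomorphisms. -/
lemma card_point_map {F F' : Type*} [Field F] [Field F'] [Finite F] [Finite F']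
    (W : WeierstrassCurve F) [W.IsElliptic] (f : F →+* F') (hf : Function.Bijective f) :
    Nat.card (W.map f).toAffine.Point = Nat.card W.toAffine.Point := by
  have h1 := Nat.card_congr (pointEquiv W.toAffine)
  have h2 := Nat.card_congr (pointEquiv (W.map f).toAffine)
  have h3 : Nat.card (WithZero {xy : F × F // W.toAffine.Equation xy.1 xy.2}) =
      Nat.card {xy : F × F // W.toAffine.Equation xy.1 xy.2} + 1 := Finite.card_option
  have h4 : Nat.card (WithZero {xy : F' × F' // (W.map f).toAffine.Equation xy.1 xy.2}) =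
      Nat.card {xy : F' × F' // (W.map f).toAffine.Equation xy.1 xy.2} + 1 := Finite.card_option
  rw [h1, h2, h3, h4]
  refine congrArg (· + 1) ?_
  symm
  refine Nat.card_eq_of_bijective
    (fun p : {xy : F × F // W.toAffine.Equation xy.1 xy.2} =>
      (⟨(f p.1.1, f p.1.2), (map_equation (W := W.toAffine) f.injective _ _).mpr p.2⟩ :
        {xy : F' × F' // (W.map f).toAffine.Equation xy.1 xy.2})) ⟨?_, ?_⟩
  · rintro ⟨⟨x, y⟩, hp⟩ ⟨⟨x', y'⟩, hp'⟩ h
    simp only [Subtype.mk.injEq, Prod.mk.injEq] at h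
    simp only [Subtype.mk.injEq, Prod.mk.injEq]
    exact ⟨f.injective h.1, f.injective h.2⟩
  · rintro ⟨⟨x, y⟩, hp⟩
    obtain ⟨x, rfl⟩ := hf.2 x
    obtain ⟨y, rfl⟩ := hf.2 y
    exact ⟨⟨(x, y), (map_equation (W := W.toAffine) f.injective _ _).mp hp⟩, rfl⟩

variable {K F : Type*} [Field K] [NumberField K] [Field F] [NumberField F] [Algebra K F]

/-- The residue fields at a place of degree one. -/
lemma exists_residue_map (w : HeightOneSpectrum (𝓞 F)) (hw : nm w = nm (dn (K := K) w)) :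
    ∃ f : ResidueField ((dn (K := K) w).adicCompletionIntegers K) →+*
      ResidueField (w.adicCompletionIntegers F), Function.Bijective f ∧
      f.comp (red (dn (K := K) w)) = (red w).comp (algebraMap (𝓞 K) (𝓞 F)) := by
  set v := dn (K := K) w with hv
  obtain ⟨f, hcomp⟩ : ∃ f : ResidueField (v.adicCompletionIntegers K) →+*
      ResidueField (w.adicCompletionIntegers F),
      f.comp (red v) = (red w).comp (algebraMap (𝓞 K) (𝓞 F)) := by
    refine ⟨(red v).liftOfSurjective (red_surjective v)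
      ⟨(red w).comp (algebraMap (𝓞 K) (𝓞 F)), fun x hx => ?_⟩, ?_⟩
    · rw [RingHom.mem_ker, red_eq_zero_iff] at hx
      rw [RingHom.mem_ker, RingHom.comp_apply, red_eq_zero_iff]
      exact hx
    · exact RingHom.liftOfRightInverse_comp _ _ _ _
  have h1 : Nat.card (ResidueField (v.adicCompletionIntegers K)) = nm v := card_residue v
  have h2 : Nat.card (ResidueField (w.adicCompletionIntegers F)) = nm w := card_residue w
  refine ⟨f, Function.Injective.bijective_of_nat_card_le f.injective ?_, hcomp⟩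
  rw [h1, h2, hw]

/-- An integral model. -/
lemma exists_integral_model (E : WeierstrassCurve K) [E.IsElliptic] :
    ∃ (W₀ : WeierstrassCurve (𝓞 K)) (C : VariableChange K),
      E = C • W₀.map (algebraMap (𝓞 K) K) ∧ W₀.Δ ≠ 0 := by
  classical
  obtain ⟨b, hb⟩ := IsLocalization.exist_integer_multiples_of_finset (nonZeroDivisors (𝓞 K))
    ({E.a₁, E.a₂, E.a₃, E.a₄, E.a₆} : Finset K)
  have hb0 : ((b : 𝓞 K) : K) ≠ 0 := by
    have := nonZeroDivisors.coe_ne_zero b
    simp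
  obtain ⟨x₁, h₁⟩ := hb E.a₁ (by simp)
  obtain ⟨x₂, h₂⟩ := hb E.a₂ (by simp)
  obtain ⟨x₃, h₃⟩ := hb E.a₃ (by simp)
  obtain ⟨x₄, h₄⟩ := hb E.a₄ (by simp)
  obtain ⟨x₆, h₆⟩ := hb E.a₆ (by simp)
  rw [Algebra.smul_def] at h₁ h₂ h₃ h₄ h₆
  set n : K := ((b : 𝓞 K) : K) with hn
  set C : VariableChange K := ⟨Units.mk0 n hb0, 0, 0, 0⟩ with hC
  set W₀ : WeierstrassCurve (𝓞 K) := ⟨x₁, b * x₂, b ^ 2 * x₃, b ^ 3 * x₄, b ^ 5 * x₆⟩ with hW₀
  have hE : E = C • W₀.map (algebraMap (𝓞 K) K) := by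
    rw [variableChange_def]
    ext
    · simp only [hW₀, hC, map_a₁, Units.val_inv_eq_inv_val, Units.val_mk0, h₁]
      field_simp
      ring
    · simp only [hW₀, hC, map_a₁, map_a₂, Units.val_inv_eq_inv_val, Units.val_mk0, h₁, h₂, map_mul]
      change _ = n⁻¹ ^ 2 * (n * (n * E.a₂) - 0 * (n * E.a₁) + 3 * 0 - 0 ^ 2)
      field_simp
      ring
    · simp only [hW₀, hC, map_a₁, map_a₃, Units.val_inv_eq_inv_val, Units.val_mk0, h₁, h₃, map_mul,
        map_pow]
      change _ = n⁻¹ ^ 3 * (n ^ 2 * (n * E.a₃) + 0 * (n * E.a₁) + 2 * 0)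
      field_simp
      ring
    · simp only [hW₀, hC, map_a₁, map_a₂, map_a₃, map_a₄, Units.val_inv_eq_inv_val, Units.val_mk0,
        h₁, h₂, h₃, h₄, map_mul, map_pow]
      change _ = n⁻¹ ^ 4 * (n ^ 3 * (n * E.a₄) - 0 * (n ^ 2 * (n * E.a₃)) +
        2 * 0 * (n * (n * E.a₂)) - (0 + 0 * 0) * (n * E.a₁) + 3 * 0 ^ 2 - 2 * 0 * 0)
      field_simp
      ring
    · simp only [hW₀, hC, map_a₁, map_a₂, map_a₃, map_a₄, map_a₆, Units.val_inv_eq_inv_val,
        Units.val_mk0, h₁, h₂, h₃, h₄, h₆, map_mul, map_pow]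
      change _ = n⁻¹ ^ 6 * (n ^ 5 * (n * E.a₆) + 0 * (n ^ 3 * (n * E.a₄)) +
        0 ^ 2 * (n * (n * E.a₂)) + 0 ^ 3 - 0 * (n ^ 2 * (n * E.a₃)) - 0 ^ 2 - 0 * 0 * (n * E.a₁))
      field_simp
      ring
  refine ⟨W₀, C, hE, fun h0 => ?_⟩
  have h1 : E.Δ ≠ 0 := E.isUnit_Δ.ne_zero
  apply h1
  rw [hE, variableChange_Δ, map_Δ, h0, map_zero, mul_zero]

/-- The trace of Frobenius under base change at a place of degree one. -/
lemma tr_baseChange {E : WeierstrassCurve K} {W₀ : WeierstrassCurve (𝓞 K)} {C : VariableChange K}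
    (hE : E = C • W₀.map (algebraMap (𝓞 K) K)) (w : HeightOneSpectrum (𝓞 F))
    (hw : nm w = nm (dn (K := K) w)) (hΔ : W₀.Δ ∉ (dn (K := K) w).asIdeal)
    (h2 : (2 : 𝓞 K) ∉ (dn (K := K) w).asIdeal) (h3 : (3 : 𝓞 K) ∉ (dn (K := K) w).asIdeal) :
    tr (E.baseChange F) w = tr E (dn (K := K) w) := by
  obtain ⟨f, hf, hcomp⟩ := exists_residue_map w hw
  have hE' : E.baseChange F = C.map (algebraMap K F) •
      (W₀.map (algebraMap (𝓞 K) (𝓞 F))).map (algebraMap (𝓞 F) F) := by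
    rw [hE, WeierstrassCurve.baseChange, ← map_variableChange,
      WeierstrassCurve.map_map, WeierstrassCurve.map_map]
    rfl
  have e1 := tr_of_good (dn (K := K) w) W₀ C hE hΔ h2 h3
  have e2 := tr_of_good w (W₀.map (algebraMap (𝓞 K) (𝓞 F))) _ hE'
    (by rw [map_Δ]; exact fun h => hΔ h)
    (fun h => h2 (by rw [mem_dn, map_ofNat]; exact h))
    (fun h => h3 (by rw [mem_dn, map_ofNat]; exact h))
  have hell : (W₀.map (red (dn (K := K) w))).IsElliptic := by
    refine ⟨?_⟩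
    rw [map_Δ, isUnit_iff_ne_zero]
    exact fun h => hΔ ((red_eq_zero_iff _ _).mp h)
  rw [e1, e2, WeierstrassCurve.map_map, ← hcomp, ← WeierstrassCurve.map_map,
    card_point_map _ f hf, hw]

omit [NumberField K] [NumberField F] in
lemma pr_dn (w : HeightOneSpectrum (𝓞 F)) : pr (dn (K := K) w) = pr w := by
  have h : Ideal.under ℤ (dn (K := K) w).asIdeal = Ideal.under ℤ w.asIdeal :=
    Ideal.under_under (A := ℤ) (B := 𝓞 K) w.asIdeal
  rw [pr, pr, h]

/-- The normalised trace under base change. -/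
lemma exists_cc_baseChange (E : WeierstrassCurve K) [E.IsElliptic] (F : Type*) [Field F]
    [NumberField F] [Algebra K F] : ∃ S : Finset (HeightOneSpectrum (𝓞 K)),
    ∀ w : HeightOneSpectrum (𝓞 F), dn (K := K) w ∉ S → nm w = nm (dn (K := K) w) →
      cc (E.baseChange F) w = cc E (dn (K := K) w) := by
  obtain ⟨W₀, C, hE, hΔ⟩ := exists_integral_model E
  have h6 : (6 : 𝓞 K) * W₀.Δ ≠ 0 := mul_ne_zero (by norm_num) hΔ
  refine ⟨(finite_dvd h6).toFinset, fun w hwS hw => ?_⟩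
  rw [Set.Finite.mem_toFinset] at hwS
  have hw6 : (6 : 𝓞 K) * W₀.Δ ∉ (dn (K := K) w).asIdeal := hwS
  have h2 : (2 : 𝓞 K) ∉ (dn (K := K) w).asIdeal := fun h => hw6 (by
    have : (6 : 𝓞 K) * W₀.Δ = 3 * W₀.Δ * 2 := by ring
    rw [this]; exact Ideal.mul_mem_left _ _ h)
  have h3 : (3 : 𝓞 K) ∉ (dn (K := K) w).asIdeal := fun h => hw6 (by
    have : (6 : 𝓞 K) * W₀.Δ = 2 * W₀.Δ * 3 := by ring
    rw [this]; exact Ideal.mul_mem_left _ _ h)
  have h5 : W₀.Δ ∉ (dn (K := K) w).asIdeal := fun h => hw6 (Ideal.mul_mem_left _ _ h)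
  have h := tr_baseChange (F := F) hE w hw h5 h2 h3
  unfold cc
  rw [h, hw, pr_dn]

/-- The logarithm of the L-series of the base change as a sum over the places of the base field. -/
theorem log_baseChange (E : WeierstrassCurve K) [E.IsElliptic] (F : Type*) [Field F]
    [NumberField F] [Algebra K F] (t : ℝ) : ∃ R : ℝ, ∀ δ : ℝ, 0 < δ →
      |Real.log ‖(E.baseChange F).LSeries ((3 / 2 + δ : ℝ) + t * Complex.I)‖ -
        ∑' v : HeightOneSpectrum (𝓞 K), wp (1 + δ) v *
          (r1 F v * (cc E v * Real.cos (t * Real.log (nm v))))| ≤ R := by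
  obtain ⟨S, hS⟩ := exists_cc_baseChange E F
  obtain ⟨C, hC0, hC⟩ := regroup (a := fun w => cc (E.baseChange F) w) (b := fun v => cc E v)
    (fun w => abs_cc_le _ w) (fun v => abs_cc_le _ v) S hS
  refine ⟨RB F + C, fun δ hδ => ?_⟩
  have h1 := log_norm_LSeries' (E.baseChange F) hδ t
  have h2 := hC (fun n => Real.cos (t * Real.log n)) (fun n => Real.abs_cos_le_one _) (1 + δ)
    (by linarith)
  have h3 := abs_le.mp h1
  have h4 := abs_le.mp h2
  rw [abs_le]
  constructor <;> linarith [h3.1, h3.2, h4.1, h4.2]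

end Pool.Agent.Lib.MP_bf61d2_nt.Perm
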