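import Pool.Agent.Lib.MP_bf61d2_nt.Perm.Trig

set_option autoImplicit false

/-!
Mean values of the absolute values of cosine polynomials.
-/

namespace Pool.Agent.Lib.MP_bf61d2_nt.Perm

open Filter Topology MeasureTheory

/-- The average of a function over `[0, X]`. -/
noncomputable def avg (h : ℝ → ℝ) (X : ℝ) : ℝ := X⁻¹ * ∫ u in (0 : ℝ)..X, h u

lemma abs_avg_sub_le {h p : ℝ → ℝ} (hc : Continuous h) (pc : Continuous p) {ε : ℝ}
    (hp : ∀ u, |h u - p u| ≤ ε) {X : ℝ} (hX : 0 < X) : |avg h X - avg p X| ≤ ε := by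
  rw [avg, avg, ← mul_sub, ← intervalIntegral.integral_sub (hc.intervalIntegrable _ _)
    (pc.intervalIntegrable _ _), abs_mul, abs_of_pos (inv_pos.mpr hX)]
  have h1 := intervalIntegral.norm_integral_le_of_norm_le_const (a := 0) (b := X)
    (f := fun u => h u - p u) (C := ε) fun u _ => by rw [Real.norm_eq_abs]; exact hp u
  rw [Real.norm_eq_abs, sub_zero, abs_of_pos hX] at h1
  calc X⁻¹ * |∫ u in (0 : ℝ)..X, (h u - p u)| ≤ X⁻¹ * (ε * X) :=
        mul_le_mul_of_nonneg_left h1 (inv_pos.mpr hX).le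
    _ = ε := by field_simp

/-- Uniform limits of cosine polynomials have a mean value. -/
lemma exists_mean {h : ℝ → ℝ} (hc : Continuous h)
    (happ : ∀ ε : ℝ, 0 < ε → ∃ (N : ℕ) (τ β : Fin N → ℝ), ∀ u : ℝ,
      |h u - ∑ k, β k * Real.cos (τ k * u)| ≤ ε) :
    ∃ m : ℝ, Tendsto (avg h) atTop (𝓝 m) ∧
      ∀ (ε : ℝ) (N : ℕ) (τ β : Fin N → ℝ), (∀ u : ℝ, |h u - ∑ k, β k * Real.cos (τ k * u)| ≤ ε) →
        |m - ∑ k, if τ k = 0 then β k else 0| ≤ ε := by
  have hpc : ∀ (N : ℕ) (τ β : Fin N → ℝ), Continuous fun u : ℝ =>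
      ∑ k, β k * Real.cos (τ k * u) := fun N τ β => by fun_prop
  have hcau : CauchySeq (avg h) := by
    rw [Metric.cauchySeq_iff']
    intro ε hε
    obtain ⟨N, τ, β, hp⟩ := happ (ε / 4) (by linarith)
    have h1 := (tendsto_mean_trig τ β).eventually (Metric.ball_mem_nhds _ (show 0 < ε / 8 by linarith))
    obtain ⟨X₀, hX₀⟩ := eventually_atTop.mp (h1.and (eventually_gt_atTop 0))
    refine ⟨X₀, fun X hX => ?_⟩
    obtain ⟨h2, h3⟩ := hX₀ X hX
    obtain ⟨h4, h5⟩ := hX₀ X₀ le_rfl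
    rw [Real.dist_eq] at h2 h4
    have h6 := abs_avg_sub_le hc (hpc N τ β) hp h3
    have h7 := abs_avg_sub_le hc (hpc N τ β) hp h5
    rw [Real.dist_eq]
    rw [avg, avg] at h6 h7
    have h8 := abs_lt.mp h2
    have h9 := abs_lt.mp h4
    have h10 := abs_le.mp h6
    have h11 := abs_le.mp h7
    rw [abs_lt, avg, avg]
    constructor <;> linarith [h8.1, h8.2, h9.1, h9.2, h10.1, h10.2, h11.1, h11.2]
  obtain ⟨m, hm⟩ := cauchySeq_tendsto_of_complete hcau
  refine ⟨m, hm, fun ε N τ β hp => ?_⟩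
  have h1 := hm.sub (tendsto_mean_trig τ β)
  refine le_of_tendsto h1.abs ?_
  filter_upwards [eventually_gt_atTop 0] with X hX
  exact abs_avg_sub_le hc (hpc N τ β) hp hX

end Pool.Agent.Lib.MP_bf61d2_nt.Perm
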