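import Pool.Agent.Lib.MP_bf61d2_nt.Perm.Final

set_option autoImplicit false

/-!
The quotient `L(E/F, s) / L(E/K, s)` near the edge, in terms of the density of the elements of the
Galois group without fixed embedding.
-/

namespace Pool.Agent.Lib.MP_bf61d2_nt.Perm

open NumberField IsDedekindDomain Filter Topology MeasureTheory

lemma integral_abs_cos_pi : ∫ x in (0 : ℝ)..Real.pi, |Real.cos x| = 2 := by
  have hpi := Real.pi_pos
  have hc : ∀ a b : ℝ, IntervalIntegrable (fun x => |Real.cos x|) volume a b := fun a b =>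
    (by fun_prop : Continuous fun x => |Real.cos x|).intervalIntegrable a b
  rw [← intervalIntegral.integral_add_adjacent_intervals (hc 0 (Real.pi / 2))
    (hc (Real.pi / 2) Real.pi)]
  have h1 : ∫ x in (0 : ℝ)..(Real.pi / 2), |Real.cos x| = 1 := by
    have h2 : ∫ x in (0 : ℝ)..(Real.pi / 2), |Real.cos x| =
        ∫ x in (0 : ℝ)..(Real.pi / 2), Real.cos x := by
      refine intervalIntegral.integral_congr fun x hx => ?_
      rw [Set.uIcc_of_le (by linarith)] at hx
      exact abs_of_nonneg (Real.cos_nonneg_of_mem_Icc ⟨by linarith [hx.1], hx.2⟩)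
    rw [h2, integral_cos, Real.sin_pi_div_two, Real.sin_zero, sub_zero]
  have h3 : ∫ x in (Real.pi / 2)..Real.pi, |Real.cos x| = 1 := by
    have h2 : ∫ x in (Real.pi / 2)..Real.pi, |Real.cos x| =
        ∫ x in (Real.pi / 2)..Real.pi, -Real.cos x := by
      refine intervalIntegral.integral_congr fun x hx => ?_
      rw [Set.uIcc_of_le (by linarith)] at hx
      exact abs_of_nonpos (Real.cos_nonpos_of_pi_div_two_le_of_le hx.1 (by linarith [hx.2]))
    rw [h2, intervalIntegral.integral_neg, integral_cos, Real.sin_pi, Real.sin_pi_div_two]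
    norm_num
  rw [h1, h3]
  norm_num

lemma avg_abs_cos {t : ℝ} (ht : t ≠ 0) (k : ℕ) :
    avg (fun u => |Real.cos (t * u)|) ((k + 1) * Real.pi / |t|) = 2 / Real.pi := by
  have hpi := Real.pi_pos
  have ht' : 0 < |t| := abs_pos.mpr ht
  have h1 : ∀ u : ℝ, |Real.cos (t * u)| = |Real.cos (|t| * u)| := by
    intro u
    rcases le_total 0 t with h | h
    · rw [abs_of_nonneg h]
    · rw [abs_of_nonpos h, neg_mul, Real.cos_neg]
  have hper : Function.Periodic (fun x => |Real.cos x|) Real.pi := fun x => by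
    simp only [Real.cos_add_pi, abs_neg]
  have h2 := hper.intervalIntegral_add_zsmul_eq (k + 1 : ℤ) 0
  rw [zero_add, zero_add, integral_abs_cos_pi] at h2
  have h3 : ((k + 1 : ℤ) • Real.pi : ℝ) = (k + 1) * Real.pi := by
    rw [zsmul_eq_mul]; push_cast; ring
  have h4 : ((k + 1 : ℤ) • (2 : ℝ)) = (k + 1) * 2 := by
    rw [zsmul_eq_mul]; push_cast; ring
  rw [h3, h4] at h2
  replace h2 := h2 fun a b =>
    (by fun_prop : Continuous fun x => |Real.cos x|).intervalIntegrable a b
  rw [avg]
  simp_rw [h1]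
  rw [intervalIntegral.integral_comp_mul_left (fun x => |Real.cos x|) ht'.ne', mul_zero,
    mul_div_cancel₀ _ ht'.ne', h2, smul_eq_mul]
  have h5 : (0 : ℝ) < k + 1 := by positivity
  field_simp

/-- The mean value of `|cos (t u)|`. -/
lemma tendsto_avg_abs_cos (t : ℝ) : Tendsto (avg fun u => |Real.cos (t * u)|) atTop
    (𝓝 (if t = 0 then 1 else 2 / Real.pi)) := by
  by_cases ht : t = 0
  · rw [if_pos ht]
    refine tendsto_const_nhds.congr' ?_
    filter_upwards [eventually_gt_atTop 0] with X hX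
    rw [avg, ht]
    simp only [zero_mul, Real.cos_zero, abs_one, intervalIntegral.integral_const, sub_zero,
      smul_eq_mul, mul_one]
    rw [inv_mul_cancel₀ hX.ne']
  · rw [if_neg ht]
    obtain ⟨m, hm, -⟩ := exists_mean (h := fun u => |Real.cos (t * u)|) (by fun_prop)
      fun ε hε => by
        obtain ⟨N, τ, β, h⟩ := exists_trig_approx (n := 1) (fun _ => t) (fun _ => 1) hε
        refine ⟨N, τ, β, fun u => ?_⟩
        have := h u
        simpa using this
    have h1 : Tendsto (fun k : ℕ => ((k : ℝ) + 1) * Real.pi / |t|) atTop atTop := by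
      have h2 : Tendsto (fun k : ℕ => (k : ℝ) + 1) atTop atTop :=
        tendsto_atTop_add_const_right _ _ tendsto_natCast_atTop_atTop
      exact (h2.atTop_mul_const Real.pi_pos).atTop_div_const (abs_pos.mpr ht)
    have h3 := hm.comp h1
    have h4 : (avg fun u => |Real.cos (t * u)|) ∘ (fun k : ℕ => ((k : ℝ) + 1) * Real.pi / |t|) =
        fun _ => 2 / Real.pi := funext fun k => avg_abs_cos ht k
    rw [h4] at h3
    have h5 := tendsto_nhds_unique h3 tendsto_const_nhds
    rw [← h5]
    exact hm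

section

variable {K M : Type*} [Field K] [NumberField K] [Field M] [NumberField M] [Algebra K M]

omit [NumberField K] [NumberField M] in
lemma fx_bot (g : Gal(M/K)) : fx (⊥ : IntermediateField K M) g = 1 := by
  have hsub : ∀ φ ψ : (⊥ : IntermediateField K M) →ₐ[K] M, φ = ψ := by
    intro φ ψ
    ext ⟨x, hx⟩
    obtain ⟨a, rfl⟩ := IntermediateField.mem_bot.mp hx
    have e : (⟨algebraMap K M a, hx⟩ : (⊥ : IntermediateField K M)) =
        algebraMap K (⊥ : IntermediateField K M) a := rfl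
    rw [e, AlgHom.commutes, AlgHom.commutes]
  rw [fx, Nat.card_eq_one_iff_exists]
  exact ⟨⟨(⊥ : IntermediateField K M).val, hsub _ _⟩, fun y => Subtype.ext (hsub _ _)⟩

variable [IsGalois K M] [Fintype Gal(M/K)]

/-- The proportion of elements of the Galois group without fixed embedding. -/
noncomputable def der (F : IntermediateField K M) : ℝ :=
  (Nat.card {g : Gal(M/K) // ∀ φ : F →ₐ[K] M, (g : M →ₐ[K] M).comp φ ≠ φ} : ℝ) /
    Nat.card Gal(M/K)

lemma sum_abs_fx_sub_one (F : IntermediateField K M) :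
    (∑ g : Gal(M/K), |(fx F g : ℝ) - 1|) / Nat.card Gal(M/K) = 2 * der F := by
  classical
  have hfd : FiniteDimensional K M := Module.Finite.of_restrictScalars_finite ℚ K M
  obtain ⟨H, hH⟩ := exists_fp_eq_fx F
  have h1 : ∑ g : Gal(M/K), (fx F g : ℝ) = Fintype.card Gal(M/K) := by
    have := sum_fp_quotient H
    simp_rw [← hH] at this
    exact_mod_cast this
  have h2 : ∀ g : Gal(M/K), |(fx F g : ℝ) - 1| = (fx F g : ℝ) - 1 +
      2 * (if fx F g = 0 then 1 else 0) := by
    intro g
    split_ifs with h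
    · rw [h]; norm_num
    · have : (1 : ℝ) ≤ fx F g := by exact_mod_cast Nat.one_le_iff_ne_zero.mpr h
      rw [abs_of_nonneg (by linarith)]
      ring
  have h3 : ∀ g : Gal(M/K), fx F g = 0 ↔ ∀ φ : F →ₐ[K] M, (g : M →ₐ[K] M).comp φ ≠ φ := by
    intro g
    rw [fx, Finite.card_eq_zero_iff, isEmpty_subtype]
  have h4 : (Nat.card {g : Gal(M/K) // ∀ φ : F →ₐ[K] M, (g : M →ₐ[K] M).comp φ ≠ φ} : ℝ) =
      ∑ g : Gal(M/K), if fx F g = 0 then 1 else 0 := by
    rw [Finset.sum_boole, Nat.card_eq_fintype_card, Fintype.card_subtype]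
    simp_rw [h3]
  rw [der, h4, Nat.card_eq_fintype_card]
  simp_rw [h2]
  rw [Finset.sum_add_distrib, Finset.sum_sub_distrib, h1, ← Finset.mul_sum, Finset.sum_const,
    nsmul_eq_mul, Finset.card_univ]
  ring

omit [Fintype Gal(M/K)] in
/-- The L-series of the base change to the bottom intermediate field. -/
lemma log_bot (E : WeierstrassCurve K) [E.IsElliptic] (t : ℝ) : ∃ R : ℝ, ∀ δ : ℝ, 0 < δ →
    |Real.log ‖E.LSeries ((3 / 2 + δ : ℝ) + t * Complex.I)‖ -
      Real.log ‖(E.baseChange (⊥ : IntermediateField K M)).LSeries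
        ((3 / 2 + δ : ℝ) + t * Complex.I)‖| ≤ R := by
  have hfd : FiniteDimensional K M := Module.Finite.of_restrictScalars_finite ℚ K M
  obtain ⟨Fr, hFr⟩ := exists_frob K M
  obtain ⟨R, hR⟩ := log_baseChange E (⊥ : IntermediateField K M) t
  obtain ⟨C, hC0, hC⟩ := swap (hFr ⊥)
  refine ⟨RB K + R + C, fun δ hδ => ?_⟩
  have h1 := abs_le.mp (log_norm_LSeries' E hδ t)
  have h2 := abs_le.mp (hR δ hδ)
  have h3 := abs_le.mp (hC (1 + δ) (by linarith) (fun v => cc E v * Real.cos (t *
    Real.log (nm v))) fun v => by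
      rw [abs_mul]
      calc _ ≤ 2 * 1 := mul_le_mul (abs_cc_le _ v) (Real.abs_cos_le_one _) (abs_nonneg _)
            (by norm_num)
        _ = 2 := by norm_num)
  simp_rw [fx_bot, Nat.cast_one, one_mul] at h3
  rw [abs_le]
  constructor <;> linarith [h1.1, h1.2, h2.1, h2.2, h3.1, h3.2]

/-- The quotient of the L-functions over `F` and over `K`. -/
theorem quotient_bound (E : WeierstrassCurve K) [E.IsElliptic] (F : IntermediateField K M)
    (t : ℝ) {ε : ℝ} (hε : 0 < ε) : ∀ᶠ σ : ℝ in 𝓝[>] (3 / 2),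
      |Real.log ‖(E.baseChange F).LSeries (σ + t * Complex.I)‖ -
        Real.log ‖E.LSeries (σ + t * Complex.I)‖| ≤
        ((if t = 0 then 4 else 8 / Real.pi) * der F + ε) * Real.log (1 / (σ - 3 / 2)) := by
  classical
  obtain ⟨B, hB, hmain⟩ := base_change_mean E ![F, (⊥ : IntermediateField K M)] ![t]
    ![![1], ![-1]]
  have hBeq : 2 * B = (if t = 0 then 4 else 8 / Real.pi) * der F := by
    have h1 : Tendsto (fun X : ℝ => (2 * der F) * avg (fun u => |Real.cos (t * u)|) X) atTop
        (𝓝 ((2 * der F) * (if t = 0 then 1 else 2 / Real.pi))) :=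
      (tendsto_avg_abs_cos t).const_mul _
    have h2 := tendsto_nhds_unique hB (h1.congr fun X => ?_)
    · rw [h2]
      split_ifs <;> ring
    · rw [avg, ← mul_assoc, mul_comm (2 * der F) X⁻¹, mul_assoc,
        ← intervalIntegral.integral_const_mul]
      congr 1
      refine intervalIntegral.integral_congr fun u _ => ?_
      rw [← sum_abs_fx_sub_one F, div_mul_eq_mul_div, Finset.sum_mul]
      congr 1
      refine Finset.sum_congr rfl fun g _ => ?_
      rw [← abs_mul]
      congr 1
      simp [Fin.sum_univ_succ, fx_bot]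
      ring
  obtain ⟨R, hR⟩ := log_bot (M := M) E t
  have hshift : Tendsto (fun σ : ℝ => σ - 3 / 2) (𝓝[>] (3 / 2)) (𝓝[>] 0) := by
    refine tendsto_nhdsWithin_iff.mpr ⟨?_, ?_⟩
    · have h : Tendsto (fun σ : ℝ => σ - 3 / 2) (𝓝 (3 / 2)) (𝓝 (3 / 2 - 3 / 2)) :=
        tendsto_id.sub_const _
      rw [sub_self] at h
      exact h.mono_left nhdsWithin_le_nhds
    · filter_upwards [self_mem_nhdsWithin] with σ hσ
      have : (3 / 2 : ℝ) < σ := hσ
      exact (by linarith : (0 : ℝ) < σ - 3 / 2)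
  filter_upwards [hmain (ε / 2) (by positivity), self_mem_nhdsWithin,
    (tendsto_log_inv.comp hshift).eventually (eventually_ge_atTop (2 * R / ε))] with σ h1 hσ h2
  have hσ' : 3 / 2 < σ := hσ
  have h3 := hR (σ - 3 / 2) (by linarith)
  have e1 : ((3 / 2 + (σ - 3 / 2) : ℝ) : ℂ) = σ := by norm_num
  rw [e1] at h3
  simp only [Fin.sum_univ_succ, Matrix.cons_val_zero, Matrix.cons_val_succ,
    Finset.univ_eq_empty, Finset.sum_empty, add_zero, one_mul, Matrix.cons_val_fin_one,
    Fin.succ_zero_eq_one, Matrix.cons_val_one] at h1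
  rw [hBeq, neg_one_mul, ← sub_eq_add_neg] at h1
  have h1' : |Real.log ‖(E.baseChange F).LSeries (σ + t * Complex.I)‖ -
      Real.log ‖(E.baseChange (⊥ : IntermediateField K M)).LSeries (σ + t * Complex.I)‖| ≤
      ((if t = 0 then 4 else 8 / Real.pi) * der F + ε / 2) * Real.log (1 / (σ - 3 / 2)) := h1
  simp only [Function.comp_apply] at h2
  rw [div_le_iff₀ hε] at h2
  have h4 := abs_le.mp h3
  have h5 := abs_le.mp h1'
  have h6 : ((if t = 0 then 4 else 8 / Real.pi) * der F + ε) * Real.log (1 / (σ - 3 / 2)) =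
      ((if t = 0 then 4 else 8 / Real.pi) * der F + ε / 2) * Real.log (1 / (σ - 3 / 2)) +
        Real.log (1 / (σ - 3 / 2)) * ε / 2 := by ring
  rw [abs_le, h6]
  constructor <;> linarith [h4.1, h4.2, h5.1, h5.2]

end

end Pool.Agent.Lib.MP_bf61d2_nt.Perm
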