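import Mathlib

set_option autoImplicit false

/-!
Fixed point counts.  For an intermediate field `F` of a Galois extension `M / K` and an element
`g` of the Galois group, `fx F g` is the number of `K`-embeddings of `F` in `M` fixed by `g`.
-/

namespace Pool.Agent.Lib.MP_bf61d2_nt.Perm

/-- The number of points of `X` fixed by `g`. -/
noncomputable def fp {G : Type*} [Group G] (X : Type*) [MulAction G X] (g : G) : ℕ :=
  Nat.card {x : X // g • x = x}

/-- The number of `K`-embeddings of `F` in `M` fixed by `g`. -/
noncomputable def fx {K M : Type*} [Field K] [Field M] [Algebra K M] (F : IntermediateField K M)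
    (g : Gal(M/K)) : ℕ :=
  Nat.card {φ : F →ₐ[K] M // (g : M →ₐ[K] M).comp φ = φ}

end Pool.Agent.Lib.MP_bf61d2_nt.Perm
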