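import Pool.Agent.Lib.MP_bf61d2_nt.Perm.Base
import Pool.Agent.Lib.MP_bf61d2_nt.Perm.Equi
import Pool.Agent.Lib.MP_bf61d2_nt.Perm.MeanVal

set_option autoImplicit false

/-!
The logarithms of the L-functions of all base changes of an elliptic curve near the edge of the
half plane of absolute convergence.
-/

namespace Pool.Agent.Lib.MP_bf61d2_nt.Perm

open NumberField IsDedekindDomain Filter Topology

variable {K M : Type*} [Field K] [NumberField K] [Field M] [NumberField M] [Algebra K M]
  [IsGalois K M] [Fintype Gal(M/K)]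

/-- The upper bound for the sum over the places. -/
theorem sum_abs_le {Fr : HeightOneSpectrum (𝓞 K) → Gal(M/K)}
    (hFr : ∀ F : IntermediateField K M, {v : HeightOneSpectrum (𝓞 K) | r1 F v ≠ fx F (Fr v)}.Finite)
    {m n : ℕ} (F : Fin m → IntermediateField K M) (t : Fin n → ℝ)
    (b : Gal(M/K) → Fin n → ℝ) (hb : ∀ g h, (∀ i, fx (F i) g = fx (F i) h) → b g = b h) :
    ∃ B : Gal(M/K) → ℝ, (∀ g, Tendsto (avg fun u => |∑ j, b g j * Real.cos (t j * u)|) atTop
        (𝓝 (B g))) ∧
      ∀ ε : ℝ, 0 < ε → ∃ C : ℝ, ∀ᶠ σ : ℝ in 𝓝[>] 1,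
        ∑' v, wp σ v * |∑ j, b (Fr v) j * Real.cos (t j * Real.log (nm v))| ≤
          ((∑ g, B g) / Fintype.card Gal(M/K) + ε) * Real.log (1 / (σ - 1)) + C := by
  classical
  -- the means
  have hmean : ∀ c : Fin n → ℝ, ∃ μ : ℝ,
      Tendsto (avg fun u => |∑ j, c j * Real.cos (t j * u)|) atTop (𝓝 μ) ∧
      ∀ (ε : ℝ) (N : ℕ) (τ β : Fin N → ℝ),
        (∀ u : ℝ, |(|∑ j, c j * Real.cos (t j * u)|) - ∑ k, β k * Real.cos (τ k * u)| ≤ ε) →
        |μ - ∑ k, if τ k = 0 then β k else 0| ≤ ε := fun c =>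
    exists_mean (by fun_prop) fun ε hε => exists_trig_approx t c hε
  choose μ hμ1 hμ2 using hmean
  refine ⟨fun g => μ (b g), fun g => hμ1 (b g), fun ε hε => ?_⟩
  set ε' : ℝ := ε / 2 with hε'
  have hε'0 : 0 < ε' := by positivity
  choose N τ β happ using fun c : Fin n → ℝ => exists_trig_approx t c hε'0
  -- equidistribution of the classes
  set Bs : Finset (Fin n → ℝ) := Finset.univ.image b with hBs
  have heq : ∀ c : Fin n → ℝ, Eqd Fr fun g => if b g = c then (1 : ℝ) else 0 := fun c =>
    eqd_of_fx hFr F _ fun g h hgh => by simp only [hb g h hgh]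
  choose Cf hCf0 hCf using heq
  obtain ⟨C₁, hC₁0, hC₁⟩ := PS_bound K
  refine ⟨ε' * C₁ + ∑ c ∈ Bs, ∑ k, |β c k| * Cf c (τ c k), ?_⟩
  have hall : ∀ᶠ σ : ℝ in 𝓝[>] 1, ∀ c ∈ Bs, ∀ k ∈ (Finset.univ : Finset (Fin (N c))),
      |∑' v, wp σ v * ((if b (Fr v) = c then (1 : ℝ) else 0) *
        Real.cos (τ c k * Real.log (nm v))) -
      (if τ c k = 0 then (∑ g, if b g = c then (1 : ℝ) else 0) / Fintype.card Gal(M/K) else 0) *
        Real.log (1 / (σ - 1))| ≤ Cf c (τ c k) := by
    rw [Filter.eventually_all_finset]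
    intro c _
    rw [Filter.eventually_all_finset]
    intro k _
    exact hCf c (τ c k)
  filter_upwards [hall, hC₁, Ioo_mem_nhdsGT (show (1 : ℝ) < 2 by norm_num)] with σ h1 h2 hσ
  have hσ' : 1 < σ := hσ.1
  set L : ℝ := Real.log (1 / (σ - 1)) with hL
  have hL0 : 0 ≤ L := Real.log_nonneg (by
    rw [le_div_iff₀ (by linarith)]
    linarith [hσ.2])
  set ind : (Fin n → ℝ) → Gal(M/K) → ℝ := fun c g => if b g = c then 1 else 0 with hind
  set T : (c : Fin n → ℝ) → Fin (N c) → ℝ := fun c k =>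
    ∑' v, wp σ v * (ind c (Fr v) * Real.cos (τ c k * Real.log (nm v))) with hT
  have hsT : ∀ (c : Fin n → ℝ) (k : Fin (N c)), Summable fun v =>
      wp σ v * (ind c (Fr v) * Real.cos (τ c k * Real.log (nm v))) := fun c k =>
    summable_fin hσ' Fr (ind c) (τ c k)
  have hS1 : HasSum (fun v => ∑ c ∈ Bs, ∑ k, β c k *
      (wp σ v * (ind c (Fr v) * Real.cos (τ c k * Real.log (nm v)))))
      (∑ c ∈ Bs, ∑ k, β c k * T c k) :=
    hasSum_sum fun c _ => hasSum_sum fun k _ => (hsT c k).hasSum.mul_left _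
  have hS2 : HasSum (fun v : HeightOneSpectrum (𝓞 K) => ε' * wp σ v) (ε' * PS K σ) :=
    (summable_wp (K := K) hσ').hasSum.mul_left _
  have hS := hS2.add hS1
  have hterm : ∀ v, wp σ v * |∑ j, b (Fr v) j * Real.cos (t j * Real.log (nm v))| ≤
      ε' * wp σ v + ∑ c ∈ Bs, ∑ k, β c k *
        (wp σ v * (ind c (Fr v) * Real.cos (τ c k * Real.log (nm v)))) := by
    intro v
    have h3 := (abs_le.mp (happ (b (Fr v)) (Real.log (nm v)))).2
    have h4 : ∑ c ∈ Bs, ∑ k, β c k *
        (wp σ v * (ind c (Fr v) * Real.cos (τ c k * Real.log (nm v)))) =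
        wp σ v * ∑ k, β (b (Fr v)) k * Real.cos (τ (b (Fr v)) k * Real.log (nm v)) := by
      rw [Finset.sum_eq_single (b (Fr v))]
      · rw [Finset.mul_sum]
        refine Finset.sum_congr rfl fun k _ => ?_
        simp only [hind, if_true, one_mul]
        ring
      · intro c _ hc
        refine Finset.sum_eq_zero fun k _ => ?_
        simp only [hind, if_neg (Ne.symm hc), zero_mul, mul_zero]
      · intro h
        exact absurd (Finset.mem_image_of_mem b (Finset.mem_univ _)) h
    rw [h4]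
    have h5 := wp_pos σ v
    nlinarith
  have hsum : Summable fun v => wp σ v *
      |∑ j, b (Fr v) j * Real.cos (t j * Real.log (nm v))| :=
    Summable.of_nonneg_of_le (fun v => mul_nonneg (wp_pos σ v).le (abs_nonneg _)) hterm hS.summable
  have h3 : ∑' v, wp σ v * |∑ j, b (Fr v) j * Real.cos (t j * Real.log (nm v))| ≤
      ε' * PS K σ + ∑ c ∈ Bs, ∑ k, β c k * T c k :=
    (hsum.tsum_le_tsum hterm hS.summable).trans_eq hS.tsum_eq
  -- the main terms
  set G : ℝ := (Fintype.card Gal(M/K) : ℝ) with hG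
  have hG0 : 0 < G := by rw [hG]; exact_mod_cast Fintype.card_pos
  set me : (Fin n → ℝ) → ℝ := fun c => (∑ g, ind c g) / G with hme
  have hme0 : ∀ c, 0 ≤ me c := fun c => div_nonneg (Finset.sum_nonneg fun g _ => by
    simp only [hind]; split_ifs <;> norm_num) hG0.le
  have h4 : ∀ c ∈ Bs, ∑ k, β c k * T c k ≤
      me c * (μ c + ε') * L + ∑ k, |β c k| * Cf c (τ c k) := by
    intro c hc
    have h5 : ∀ k, β c k * T c k ≤ (if τ c k = 0 then β c k else 0) * (me c * L) +
        |β c k| * Cf c (τ c k) := by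
      intro k
      have h6 := h1 c hc k (Finset.mem_univ _)
      have h7 : |β c k * (T c k - (if τ c k = 0 then me c else 0) * L)| ≤
          |β c k| * Cf c (τ c k) := by
        rw [abs_mul]
        exact mul_le_mul_of_nonneg_left h6 (abs_nonneg _)
      have h8 := (abs_le.mp h7).2
      split_ifs at h8 ⊢ with h9
      · linarith
      · linarith
    refine (Finset.sum_le_sum fun k _ => h5 k).trans ?_
    rw [Finset.sum_add_distrib, ← Finset.sum_mul]
    have h6 := (abs_le.mp (hμ2 c ε' (N c) (τ c) (β c) (happ c))).1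
    have h7 : (∑ k, if τ c k = 0 then β c k else 0) ≤ μ c + ε' := by linarith
    have h8 := mul_le_mul_of_nonneg_right h7 (mul_nonneg (hme0 c) hL0)
    linarith
  have h5 : ∑ c ∈ Bs, me c * (μ c + ε') = (∑ g, μ (b g)) / G + ε' := by
    have h6 : ∀ c, me c * (μ c + ε') = (∑ g, ind c g * (μ c + ε')) / G := fun c => by
      rw [hme]
      simp only
      rw [← Finset.sum_mul]
      ring
    simp_rw [h6]
    rw [← Finset.sum_div, Finset.sum_comm]
    have h7 : ∀ g, ∑ c ∈ Bs, ind c g * (μ c + ε') = μ (b g) + ε' := by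
      intro g
      rw [Finset.sum_eq_single (b g)]
      · simp only [hind, if_true, one_mul]
      · intro c _ hc
        simp only [hind, if_neg (Ne.symm hc), zero_mul]
      · intro h
        exact absurd (Finset.mem_image_of_mem b (Finset.mem_univ _)) h
    simp_rw [h7]
    rw [Finset.sum_add_distrib, Finset.sum_const, nsmul_eq_mul, Finset.card_univ, ← hG]
    field_simp
  have h6 : ∑ c ∈ Bs, ∑ k, β c k * T c k ≤
      ((∑ g, μ (b g)) / G + ε') * L + ∑ c ∈ Bs, ∑ k, |β c k| * Cf c (τ c k) := by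
    refine (Finset.sum_le_sum h4).trans ?_
    rw [Finset.sum_add_distrib, ← Finset.sum_mul, h5]
  have h7 := (abs_le.mp h2).2
  have h8 : ε' * PS K σ ≤ ε' * (L + C₁) := mul_le_mul_of_nonneg_left (by linarith) hε'0.le
  have h9 : ε = ε' + ε' := by rw [hε']; ring
  rw [h9]
  linarith

/-- The mean value theorem for all base changes. -/
theorem base_change_mean (E : WeierstrassCurve K) [E.IsElliptic] {m n : ℕ}
    (F : Fin m → IntermediateField K M) (t : Fin n → ℝ) (c : Fin m → Fin n → ℝ) :
    ∃ B : ℝ, Tendsto (fun X : ℝ => X⁻¹ * ∫ u in (0 : ℝ)..X,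
        (∑ g : Gal(M/K), |∑ i, ∑ j, c i j * fx (F i) g * Real.cos (t j * u)|) /
          Nat.card Gal(M/K)) atTop (𝓝 B) ∧
      ∀ ε : ℝ, 0 < ε → ∀ᶠ σ : ℝ in 𝓝[>] (3 / 2),
        |∑ i, ∑ j, c i j * Real.log ‖(E.baseChange (F i)).LSeries (σ + t j * Complex.I)‖| ≤
          (2 * B + ε) * Real.log (1 / (σ - 3 / 2)) := by
  classical
  obtain ⟨Fr, hFr⟩ := exists_frob K M
  set b : Gal(M/K) → Fin n → ℝ := fun g j => ∑ i, c i j * fx (F i) g with hb
  obtain ⟨Bg, hB1, hB2⟩ := sum_abs_le hFr F t b fun g h hgh => by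
    funext j
    simp only [hb, hgh]
  have hbsum : ∀ (g : Gal(M/K)) (u : ℝ), ∑ i, ∑ j, c i j * fx (F i) g * Real.cos (t j * u) =
      ∑ j, b g j * Real.cos (t j * u) := by
    intro g u
    rw [Finset.sum_comm]
    refine Finset.sum_congr rfl fun j _ => ?_
    rw [hb]
    simp only
    rw [Finset.sum_mul]
  refine ⟨(∑ g, Bg g) / Fintype.card Gal(M/K), ?_, ?_⟩
  · have h1 : Tendsto (fun X : ℝ => (∑ g : Gal(M/K),
        avg (fun u => |∑ j, b g j * Real.cos (t j * u)|) X) / Fintype.card Gal(M/K)) atTop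
        (𝓝 ((∑ g, Bg g) / Fintype.card Gal(M/K))) :=
      (tendsto_finsetSum _ fun g _ => hB1 g).div_const _
    refine h1.congr fun X => ?_
    simp_rw [hbsum]
    rw [intervalIntegral.integral_div, intervalIntegral.integral_finsetSum fun g _ =>
      (by fun_prop : Continuous fun u : ℝ => |∑ j, b g j * Real.cos (t j * u)|).intervalIntegrable
        _ _, Nat.card_eq_fintype_card, ← mul_div_assoc, Finset.mul_sum]
    rfl
  · intro ε hε
    set B : ℝ := (∑ g, Bg g) / Fintype.card Gal(M/K) with hB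
    choose R hR using fun (i : Fin m) (j : Fin n) => log_baseChange E (F i) (t j)
    choose C hC0 hC using fun i : Fin m => swap (hFr (F i))
    obtain ⟨C', hC'⟩ := hB2 (ε / 4) (by positivity)
    set D : ℝ := ∑ i, ∑ j, |c i j| * (R i j + C i) with hD
    have hmain : ∀ᶠ δ : ℝ in 𝓝[>] 0,
        |∑ i, ∑ j, c i j * Real.log ‖(E.baseChange (F i)).LSeries
          ((3 / 2 + δ : ℝ) + t j * Complex.I)‖| ≤ (2 * B + ε) * Real.log (1 / δ) := by
      filter_upwards [self_mem_nhdsWithin, tendsto_one_add.eventually hC',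
        tendsto_log_inv.eventually (eventually_ge_atTop (2 * (D + 2 * C') / ε)),
        tendsto_log_inv.eventually (eventually_ge_atTop 0)] with δ hδ h1 h2 h0
      have hδ0 : 0 < δ := hδ
      have hσ1 : 1 < 1 + δ := by linarith
      rw [add_sub_cancel_left] at h1
      set L : ℝ := Real.log (1 / δ) with hL
      -- the sum over the places
      have hx : ∀ (j : Fin n) (v : HeightOneSpectrum (𝓞 K)),
          |cc E v * Real.cos (t j * Real.log (nm v))| ≤ 2 := by
        intro j v
        rw [abs_mul]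
        calc _ ≤ 2 * 1 := mul_le_mul (abs_cc_le _ v) (Real.abs_cos_le_one _) (abs_nonneg _)
              (by norm_num)
          _ = 2 := by norm_num
      have hs : ∀ (i : Fin m) (j : Fin n), Summable fun v => wp (1 + δ) v *
          ((fx (F i) (Fr v) : ℝ) * (cc E v * Real.cos (t j * Real.log (nm v)))) := by
        intro i j
        refine summable_mul_bdd (summable_wp (K := K) hσ1) (fun v => (wp_pos _ v).le)
          (B := (∑ g : Gal(M/K), (fx (F i) g : ℝ)) * 2) fun v => ?_
        rw [abs_mul, abs_of_nonneg (Nat.cast_nonneg _)]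
        have : (fx (F i) (Fr v) : ℝ) ≤ ∑ g : Gal(M/K), (fx (F i) g : ℝ) :=
          Finset.single_le_sum (f := fun g : Gal(M/K) => (fx (F i) g : ℝ))
            (fun g _ => Nat.cast_nonneg _) (Finset.mem_univ _)
        exact mul_le_mul this (hx j v) (abs_nonneg _)
          (Finset.sum_nonneg fun _ _ => Nat.cast_nonneg _)
      set Sij : Fin m → Fin n → ℝ := fun i j => ∑' v, wp (1 + δ) v *
          ((fx (F i) (Fr v) : ℝ) * (cc E v * Real.cos (t j * Real.log (nm v)))) with hSij
      have h3 : ∀ i j, |Real.log ‖(E.baseChange (F i)).LSeries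
          ((3 / 2 + δ : ℝ) + t j * Complex.I)‖ - Sij i j| ≤ R i j + C i := by
        intro i j
        have h4 := abs_le.mp (hR i j δ hδ0)
        have h5 := abs_le.mp (hC i (1 + δ) hσ1 (fun v => cc E v * Real.cos (t j *
          Real.log (nm v))) (hx j))
        rw [abs_le]
        constructor <;> linarith [h4.1, h4.2, h5.1, h5.2]
      have h4 : |∑ i, ∑ j, c i j * Real.log ‖(E.baseChange (F i)).LSeries
          ((3 / 2 + δ : ℝ) + t j * Complex.I)‖ - ∑ i, ∑ j, c i j * Sij i j| ≤ D := by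
        rw [← Finset.sum_sub_distrib]
        refine (Finset.abs_sum_le_sum_abs _ _).trans (Finset.sum_le_sum fun i _ => ?_)
        rw [← Finset.sum_sub_distrib]
        refine (Finset.abs_sum_le_sum_abs _ _).trans (Finset.sum_le_sum fun j _ => ?_)
        rw [← mul_sub, abs_mul]
        exact mul_le_mul_of_nonneg_left (h3 i j) (abs_nonneg _)
      have h5 : HasSum (fun v => wp (1 + δ) v * (cc E v *
          ∑ j, b (Fr v) j * Real.cos (t j * Real.log (nm v)))) (∑ i, ∑ j, c i j * Sij i j) := by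
        have h6 : HasSum (fun v => ∑ i, ∑ j, c i j * (wp (1 + δ) v *
            ((fx (F i) (Fr v) : ℝ) * (cc E v * Real.cos (t j * Real.log (nm v))))))
            (∑ i, ∑ j, c i j * Sij i j) :=
          hasSum_sum fun i _ => hasSum_sum fun j _ => (hs i j).hasSum.mul_left _
        have e : (fun v => wp (1 + δ) v * (cc E v *
            ∑ j, b (Fr v) j * Real.cos (t j * Real.log (nm v)))) = fun v => ∑ i, ∑ j, c i j *
            (wp (1 + δ) v * ((fx (F i) (Fr v) : ℝ) *
              (cc E v * Real.cos (t j * Real.log (nm v))))) := by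
          funext v
          rw [← hbsum (Fr v) (Real.log (nm v)), Finset.mul_sum, Finset.mul_sum]
          refine Finset.sum_congr rfl fun i _ => ?_
          rw [Finset.mul_sum, Finset.mul_sum]
          refine Finset.sum_congr rfl fun j _ => ?_
          ring
        rw [e]
        exact h6
      have hsabs : Summable fun v => wp (1 + δ) v *
          |∑ j, b (Fr v) j * Real.cos (t j * Real.log (nm v))| := by
        refine summable_mul_bdd (summable_wp (K := K) hσ1) (fun v => (wp_pos _ v).le)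
          (B := ∑ g : Gal(M/K), ∑ j, |b g j|) fun v => ?_
        rw [abs_abs]
        refine (Finset.abs_sum_le_sum_abs _ _).trans ?_
        refine (Finset.sum_le_sum fun j _ => ?_).trans (Finset.single_le_sum
          (f := fun g : Gal(M/K) => ∑ j, |b g j|)
          (fun g _ => Finset.sum_nonneg fun _ _ => abs_nonneg _) (Finset.mem_univ (Fr v)))
        rw [abs_mul]
        exact mul_le_of_le_one_right (abs_nonneg _) (Real.abs_cos_le_one _)
      have h6 : |∑ i, ∑ j, c i j * Sij i j| ≤ 2 * ((B + ε / 4) * L + C') := by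
        rw [← h5.tsum_eq, ← Real.norm_eq_abs]
        refine (tsum_of_norm_bounded (hsabs.hasSum.mul_left 2) fun v => ?_).trans
          (mul_le_mul_of_nonneg_left h1 (by norm_num))
        rw [Real.norm_eq_abs, abs_mul, abs_mul, abs_of_pos (wp_pos _ v)]
        have h7 := mul_le_mul_of_nonneg_right (abs_cc_le E v)
          (abs_nonneg (∑ j, b (Fr v) j * Real.cos (t j * Real.log (nm v))))
        have h8 := mul_le_mul_of_nonneg_left h7 (wp_pos (1 + δ) v).le
        linarith
      have h7 : 2 * (D + 2 * C') ≤ L * ε := by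
        rw [div_le_iff₀ hε] at h2
        exact h2
      have h8 := abs_le.mp h4
      have h9 := abs_le.mp h6
      rw [abs_le]
      constructor <;> nlinarith [h8.1, h8.2, h9.1, h9.2]
    have hshift : Tendsto (fun σ : ℝ => σ - 3 / 2) (𝓝[>] (3 / 2)) (𝓝[>] 0) := by
      refine tendsto_nhdsWithin_iff.mpr ⟨?_, ?_⟩
      · have h : Tendsto (fun σ : ℝ => σ - 3 / 2) (𝓝 (3 / 2)) (𝓝 (3 / 2 - 3 / 2)) :=
          tendsto_id.sub_const _
        rw [sub_self] at h
        exact h.mono_left nhdsWithin_le_nhds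
      · filter_upwards [self_mem_nhdsWithin] with σ hσ
        have : (3 / 2 : ℝ) < σ := hσ
        exact (by linarith : (0 : ℝ) < σ - 3 / 2)
    refine (hshift.eventually hmain).mono fun σ hσ => ?_
    have e1 : ((3 / 2 + (σ - 3 / 2) : ℝ) : ℂ) = σ := by norm_num
    simp_rw [e1] at hσ
    exact hσ

end Pool.Agent.Lib.MP_bf61d2_nt.Perm
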