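import Pool.Agent.Lib.MP_bf61d2_nt.Joint.Functional
import Pool.Agent.Lib.MP_bf61d2_nt.Perm.Defs

set_option autoImplicit false

/-!
Places of degree one and Frobenius elements: for an intermediate field `F` of a Galois extension
`M / K` of number fields, and all but finitely many places `v` of `K`, the number of places of `F`
above `v` with the same residue field is the number of embeddings of `F` in `M` fixed by a Frobenius
element at `v`.
-/

namespace Pool.Agent.Lib.MP_bf61d2_nt.Perm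

open NumberField IsDedekindDomain Filter Topology Polynomial

/-- The number of places of `L` above `v` with the same residue field. -/
noncomputable def r1 {K : Type*} (L : Type*) [Field K] [NumberField K] [Field L] [NumberField L]
    [Algebra K L] (v : HeightOneSpectrum (𝓞 K)) : ℕ :=
  Nat.card {w : HeightOneSpectrum (𝓞 L) // dn (K := K) w = v ∧ nm w = nm v}

section

variable {K F M : Type*} [Field K] [NumberField K] [Field F] [NumberField F] [Algebra K F]
  [Field M] [NumberField M] [Algebra K M]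

/-- An integral primitive element. -/
lemma exists_theta (K F : Type*) [Field K] [NumberField K] [Field F] [NumberField F]
    [Algebra K F] : ∃ (B : PowerBasis K F) (θ : 𝓞 F), (θ : F) = B.gen := by
  have hfd : FiniteDimensional K F := Module.Finite.of_restrictScalars_finite ℚ K F
  set B₀ : PowerBasis K F := Field.powerBasisOfFiniteOfSeparable K F with hB₀
  have halg : IsAlgebraic ℤ B₀.gen := by
    have h1 : IsAlgebraic ℚ B₀.gen := Algebra.IsAlgebraic.isAlgebraic _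
    exact (IsFractionRing.isAlgebraic_iff ℤ ℚ F).mpr h1
  obtain ⟨y, hy0, hyint⟩ := halg.exists_integral_multiple
  have hyK : (y : K) ≠ 0 := by exact_mod_cast hy0
  have hmem : B₀.gen ∈ Algebra.adjoin K ({y • B₀.gen} : Set F) := by
    have h1 : B₀.gen = ((y : K)⁻¹) • (y • B₀.gen) := by
      rw [← Int.cast_smul_eq_zsmul K y B₀.gen, smul_smul, inv_mul_cancel₀ hyK, one_smul]
    have h2 := Subalgebra.smul_mem (Algebra.adjoin K ({y • B₀.gen} : Set F))
      (Algebra.subset_adjoin (Set.mem_singleton (y • B₀.gen))) ((y : K)⁻¹)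
    rwa [← h1] at h2
  have hint : IsIntegral K (y • B₀.gen) := hyint.tower_top
  exact ⟨PowerBasis.ofAdjoinEqTop hint (PowerBasis.adjoin_eq_top_of_gen_mem_adjoin hmem),
    ⟨y • B₀.gen, hyint⟩, rfl⟩

/-- At a place of degree one every integer is congruent to an integer of the base field. -/
lemma exists_repr (w : HeightOneSpectrum (𝓞 F)) (hw : nm w = nm (dn (K := K) w)) (x : 𝓞 F) :
    ∃ a : 𝓞 K, algebraMap (𝓞 K) (𝓞 F) a - x ∈ w.asIdeal := by
  set v := dn (K := K) w with hv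
  set f : 𝓞 K ⧸ v.asIdeal →+* 𝓞 F ⧸ w.asIdeal := algebraMap (𝓞 K ⧸ v.asIdeal) (𝓞 F ⧸ w.asIdeal)
    with hf
  have hmax : v.asIdeal.IsMaximal := v.isMaximal
  have hmaxw : w.asIdeal.IsMaximal := w.isMaximal
  have hinj : Function.Injective f := by
    let := Ideal.Quotient.field v.asIdeal
    exact RingHom.injective f
  have hfin : Finite (𝓞 F ⧸ w.asIdeal) := by
    apply Nat.finite_of_card_ne_zero
    have h1 : Nat.card (𝓞 F ⧸ w.asIdeal) = nm w := by
      rw [nm, Ideal.absNorm_apply, Submodule.cardQuot_apply]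
    rw [h1]
    have := one_lt_nm w
    omega
  have hsurj : Function.Surjective f := by
    have h1 : Nat.card (𝓞 K ⧸ v.asIdeal) = Nat.card (𝓞 F ⧸ w.asIdeal) := by
      have h2 : Nat.card (𝓞 F ⧸ w.asIdeal) = nm w := by
        rw [nm, Ideal.absNorm_apply, Submodule.cardQuot_apply]
      have h3 : Nat.card (𝓞 K ⧸ v.asIdeal) = nm v := by
        rw [nm, Ideal.absNorm_apply, Submodule.cardQuot_apply]
      rw [h2, h3, hw]
    exact (Function.Injective.bijective_of_nat_card_le hinj h1.ge).2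
  obtain ⟨y, hy⟩ := hsurj (Ideal.Quotient.mk w.asIdeal x)
  obtain ⟨a, rfl⟩ := Ideal.Quotient.mk_surjective y
  refine ⟨a, ?_⟩
  rw [← Ideal.Quotient.eq]
  exact hy

/-- The place cut out by an embedding. -/
noncomputable def pl (φ : F →ₐ[K] M) (P : HeightOneSpectrum (𝓞 M)) :
    HeightOneSpectrum (𝓞 F) where
  asIdeal := P.asIdeal.comap (RingOfIntegers.mapAlgHom φ : 𝓞 F →ₐ[𝓞 K] 𝓞 M)
  isPrime := by
    have := P.isPrime
    infer_instance
  ne_bot := by
    obtain ⟨x, hx, hx0⟩ := Submodule.exists_mem_ne_zero_of_ne_bot (dn (K := K) P).ne_bot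
    intro h
    have h1 : algebraMap (𝓞 K) (𝓞 F) x ∈
        P.asIdeal.comap (RingOfIntegers.mapAlgHom φ : 𝓞 F →ₐ[𝓞 K] 𝓞 M) := by
      rw [Ideal.mem_comap, AlgHom.commutes]
      exact hx
    rw [h, Ideal.mem_bot] at h1
    exact hx0 (by simpa using h1)

omit [NumberField K] [NumberField F] [NumberField M] in
lemma mem_pl (φ : F →ₐ[K] M) (P : HeightOneSpectrum (𝓞 M)) (x : 𝓞 F) :
    x ∈ (pl φ P).asIdeal ↔ (RingOfIntegers.mapAlgHom φ : 𝓞 F →ₐ[𝓞 K] 𝓞 M) x ∈ P.asIdeal := Iff.rfl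

lemma dn_pl (φ : F →ₐ[K] M) (P : HeightOneSpectrum (𝓞 M)) :
    dn (K := K) (pl φ P) = dn (K := K) P := by
  apply HeightOneSpectrum.ext
  ext x
  rw [mem_dn, mem_dn, mem_pl, AlgHom.commutes]

/-- A place at which the Frobenius power is trivial has small norm. -/
lemma nm_le_of_pow (w : HeightOneSpectrum (𝓞 F)) {q : ℕ} (hq : 1 < q)
    (h : ∀ x : 𝓞 F, x ^ q - x ∈ w.asIdeal) : nm w ≤ q := by
  classical
  have hmaxw : w.asIdeal.IsMaximal := w.isMaximal
  let := Ideal.Quotient.field w.asIdeal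
  have hcard : Nat.card (𝓞 F ⧸ w.asIdeal) = nm w := by
    rw [nm, Ideal.absNorm_apply, Submodule.cardQuot_apply]
  have hfin : Finite (𝓞 F ⧸ w.asIdeal) := by
    apply Nat.finite_of_card_ne_zero
    rw [hcard]
    have := one_lt_nm w
    omega
  have := Fintype.ofFinite (𝓞 F ⧸ w.asIdeal)
  rw [← hcard, Nat.card_eq_fintype_card]
  have hdeg : (X ^ q - X : (𝓞 F ⧸ w.asIdeal)[X]).natDegree = q :=
    FiniteField.X_pow_card_sub_X_natDegree_eq _ hq
  have hne : (X ^ q - X : (𝓞 F ⧸ w.asIdeal)[X]) ≠ 0 := FiniteField.X_pow_card_sub_X_ne_zero _ hq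
  rw [← Finset.card_univ, ← hdeg]
  refine Polynomial.card_le_degree_of_subset_roots fun x _ => ?_
  rw [mem_roots hne, IsRoot.def, eval_sub, eval_pow, eval_X]
  obtain ⟨y, rfl⟩ := Ideal.Quotient.mk_surjective x
  rw [← map_pow, ← map_sub, Ideal.Quotient.eq_zero_iff_mem]
  exact h y

omit [NumberField F] in
/-- There is a place above every place. -/
lemma exists_dn_eq (v : HeightOneSpectrum (𝓞 K)) :
    ∃ w : HeightOneSpectrum (𝓞 F), dn (K := K) w = v := by
  have hvmax : v.asIdeal.IsMaximal := v.isMaximal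
  obtain ⟨P, hPmax, hPover⟩ : ∃ P : Ideal (𝓞 F), P.IsMaximal ∧
      P.comap (algebraMap (𝓞 K) (𝓞 F)) = v.asIdeal := by
    refine Ideal.exists_ideal_over_maximal_of_isIntegral v.asIdeal ?_
    rw [(RingHom.injective_iff_ker_eq_bot _).mp (FaithfulSMul.algebraMap_injective (𝓞 K) (𝓞 F))]
    exact bot_le
  have hPbot : P ≠ ⊥ := by
    rintro rfl
    apply v.ne_bot
    rw [← hPover, ← RingHom.ker_eq_comap_bot]
    exact (RingHom.injective_iff_ker_eq_bot _).mp (FaithfulSMul.algebraMap_injective (𝓞 K) (𝓞 F))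
  exact ⟨⟨P, hPmax.isPrime, hPbot⟩, HeightOneSpectrum.ext hPover⟩

end

section Galois

variable {K M : Type*} [Field K] [NumberField K] [Field M] [NumberField M] [Algebra K M]
  [IsGalois K M]

omit [NumberField K] [NumberField M] [IsGalois K M] in
lemma mapAlgHom_comp (F : IntermediateField K M) (g : Gal(M/K)) (φ : F →ₐ[K] M) (x : 𝓞 F) :
    (RingOfIntegers.mapAlgHom ((g : M →ₐ[K] M).comp φ) : 𝓞 F →ₐ[𝓞 K] 𝓞 M) x =
      g • (RingOfIntegers.mapAlgHom φ : 𝓞 F →ₐ[𝓞 K] 𝓞 M) x := rfl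

/-- Every place of an intermediate field is cut out by an embedding. -/
lemma exists_pl_eq (F : IntermediateField K M) (P : HeightOneSpectrum (𝓞 M))
    (w : HeightOneSpectrum (𝓞 F)) (hw : dn (K := K) w = dn (K := K) P) :
    ∃ φ : F →ₐ[K] M, pl φ P = w := by
  obtain ⟨Q, hQ⟩ := exists_dn_eq (K := F) (F := M) w
  have hQ2 : dn (K := K) Q = dn (K := K) P := by
    rw [← hw, ← hQ]
    rfl
  have hfd : FiniteDimensional K M := Module.Finite.of_restrictScalars_finite ℚ K M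
  have hPp := P.isPrime
  have hQp := Q.isPrime
  obtain ⟨g, hg⟩ := Algebra.IsInvariant.exists_smul_of_under_eq (𝓞 K) (𝓞 M) Gal(M/K)
    P.asIdeal Q.asIdeal (congrArg HeightOneSpectrum.asIdeal hQ2).symm
  refine ⟨((g⁻¹ : Gal(M/K)) : M →ₐ[K] M).comp F.val, ?_⟩
  apply HeightOneSpectrum.ext
  ext x
  rw [mem_pl, mapAlgHom_comp, ← Ideal.mem_pointwise_smul_iff_inv_smul_mem, ← hg, ← hQ]
  rfl

/-- The number of places of degree one is the number of embeddings fixed by the Frobenius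
element. -/
theorem r1_eq_fx (F : IntermediateField K M) {θ : 𝓞 F} (v : HeightOneSpectrum (𝓞 K))
    (P : HeightOneSpectrum (𝓞 M)) (hP : dn (K := K) P = v) (σ : Gal(M/K))
    (hσ : ∀ x : 𝓞 M, σ • x - x ^ nm v ∈ P.asIdeal)
    (hdist : ∀ φ ψ : F →ₐ[K] M, φ ≠ ψ → (RingOfIntegers.mapAlgHom φ : 𝓞 F →ₐ[𝓞 K] 𝓞 M) θ -
      (RingOfIntegers.mapAlgHom ψ : 𝓞 F →ₐ[𝓞 K] 𝓞 M) θ ∉ P.asIdeal) :
    r1 F v = fx F σ := by
  have hPp := P.isPrime
  -- places cut out by fixed embeddings have degree one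
  have h1 : ∀ φ : F →ₐ[K] M, (σ : M →ₐ[K] M).comp φ = φ →
      dn (K := K) (pl φ P) = v ∧ nm (pl φ P) = nm v := by
    intro φ hφ
    have hd : dn (K := K) (pl φ P) = v := by rw [dn_pl, hP]
    refine ⟨hd, le_antisymm ?_ (hd ▸ nm_dn_le (pl φ P))⟩
    refine nm_le_of_pow _ (one_lt_nm v) fun x => ?_
    rw [mem_pl, map_sub, map_pow]
    have h2 := hσ ((RingOfIntegers.mapAlgHom φ : 𝓞 F →ₐ[𝓞 K] 𝓞 M) x)
    rw [← mapAlgHom_comp, hφ] at h2
    rw [← neg_mem_iff, neg_sub]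
    exact h2
  symm
  refine Nat.card_eq_of_bijective
    (fun φ : {φ : F →ₐ[K] M // (σ : M →ₐ[K] M).comp φ = φ} =>
      (⟨pl φ.1 P, h1 φ.1 φ.2⟩ : {w : HeightOneSpectrum (𝓞 F) // dn (K := K) w = v ∧ nm w = nm v}))
    ⟨?_, ?_⟩
  · rintro ⟨φ, hφ⟩ ⟨ψ, hψ⟩ h
    have h2 : pl φ P = pl ψ P := congrArg Subtype.val h
    by_contra hne
    have hne' : φ ≠ ψ := fun h' => hne (Subtype.ext h')
    obtain ⟨a, ha⟩ := exists_repr (K := K) (pl φ P) (by rw [(h1 φ hφ).1]; exact (h1 φ hφ).2) θ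
    have ha2 : algebraMap (𝓞 K) (𝓞 F) a - θ ∈ (pl ψ P).asIdeal := h2 ▸ ha
    rw [mem_pl, map_sub, AlgHom.commutes] at ha ha2
    apply hdist φ ψ hne'
    have e : (RingOfIntegers.mapAlgHom φ : 𝓞 F →ₐ[𝓞 K] 𝓞 M) θ -
        (RingOfIntegers.mapAlgHom ψ : 𝓞 F →ₐ[𝓞 K] 𝓞 M) θ =
        (algebraMap (𝓞 K) (𝓞 M) a - (RingOfIntegers.mapAlgHom ψ : 𝓞 F →ₐ[𝓞 K] 𝓞 M) θ) -
        (algebraMap (𝓞 K) (𝓞 M) a - (RingOfIntegers.mapAlgHom φ : 𝓞 F →ₐ[𝓞 K] 𝓞 M) θ) := by ring
    rw [e]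
    exact sub_mem ha2 ha
  · rintro ⟨w, hwv, hwn⟩
    obtain ⟨φ, hφ⟩ := exists_pl_eq F P w (by rw [hwv, hP])
    have hfix : (σ : M →ₐ[K] M).comp φ = φ := by
      by_contra hne
      apply hdist _ _ hne
      obtain ⟨a, ha⟩ := exists_repr (K := K) w (by rw [hwv, hwn]) θ
      rw [← hφ, mem_pl, map_sub, AlgHom.commutes] at ha
      rw [mapAlgHom_comp]
      set y : 𝓞 M := (RingOfIntegers.mapAlgHom φ : 𝓞 F →ₐ[𝓞 K] 𝓞 M) θ with hy
      set A : 𝓞 M := algebraMap (𝓞 K) (𝓞 M) a with hA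
      have h2 := hσ A
      have h3 : σ • A = A := by
        rw [hA]
        exact smul_algebraMap σ a
      rw [h3] at h2
      have h4 := hσ y
      have h5 : A ^ nm v - y ^ nm v ∈ P.asIdeal :=
        Ideal.mem_of_dvd _ (sub_dvd_pow_sub_pow A y (nm v)) ha
      have e : σ • y - y = (σ • y - y ^ nm v) - (A ^ nm v - y ^ nm v) - (A - A ^ nm v) +
          (A - y) := by ring
      rw [e]
      exact add_mem (sub_mem (sub_mem h4 h5) h2) ha
    exact ⟨⟨φ, hfix⟩, Subtype.ext hφ⟩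

/-- Frobenius elements, for all intermediate fields together. -/
theorem exists_frob (K M : Type*) [Field K] [NumberField K] [Field M] [NumberField M]
    [Algebra K M] [IsGalois K M] : ∃ Fr : HeightOneSpectrum (𝓞 K) → Gal(M/K),
      ∀ F : IntermediateField K M, {v : HeightOneSpectrum (𝓞 K) | r1 F v ≠ fx F (Fr v)}.Finite := by
  have hfd : FiniteDimensional K M := Module.Finite.of_restrictScalars_finite ℚ K M
  choose P hP using fun v : HeightOneSpectrum (𝓞 K) => exists_dn_eq (K := K) (F := M) v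
  have hfr : ∀ v : HeightOneSpectrum (𝓞 K), ∃ σ : Gal(M/K),
      ∀ x : 𝓞 M, σ • x - x ^ nm v ∈ (P v).asIdeal := by
    intro v
    have h1 : (P v).asIdeal.IsPrime := (P v).isPrime
    have h2 : Nat.card (𝓞 M ⧸ (P v).asIdeal) = nm (P v) := by
      rw [nm, Ideal.absNorm_apply, Submodule.cardQuot_apply]
    have h3 : Finite (𝓞 M ⧸ (P v).asIdeal) := by
      apply Nat.finite_of_card_ne_zero
      rw [h2]
      have := one_lt_nm (P v)
      omega
    obtain ⟨σ, hσ⟩ := IsArithFrobAt.exists_of_isInvariant (𝓞 K) Gal(M/K) (P v).asIdeal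
    refine ⟨σ, fun x => ?_⟩
    have h4 := hσ x
    have h5 : Nat.card (𝓞 K ⧸ (P v).asIdeal.under (𝓞 K)) = nm v := by
      have h6 : (P v).asIdeal.under (𝓞 K) = v.asIdeal := congrArg HeightOneSpectrum.asIdeal (hP v)
      rw [h6, nm, Ideal.absNorm_apply, Submodule.cardQuot_apply]
    rw [h5] at h4
    exact h4
  choose Fr hFr using hfr
  refine ⟨Fr, fun F => ?_⟩
  obtain ⟨B, θ, hθ⟩ := exists_theta K F
  have hPinj : Function.Injective P := fun v v' h => by rw [← hP v, ← hP v', h]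
  have hfin : ∀ q : (F →ₐ[K] M) × (F →ₐ[K] M), {v : HeightOneSpectrum (𝓞 K) | q.1 ≠ q.2 ∧
      (RingOfIntegers.mapAlgHom q.1 : 𝓞 F →ₐ[𝓞 K] 𝓞 M) θ -
      (RingOfIntegers.mapAlgHom q.2 : 𝓞 F →ₐ[𝓞 K] 𝓞 M) θ ∈ (P v).asIdeal}.Finite := by
    intro q
    by_cases hq : q.1 = q.2
    · refine Set.Finite.subset Set.finite_empty fun v hv => absurd hq hv.1
    · have hne : (RingOfIntegers.mapAlgHom q.1 : 𝓞 F →ₐ[𝓞 K] 𝓞 M) θ -
          (RingOfIntegers.mapAlgHom q.2 : 𝓞 F →ₐ[𝓞 K] 𝓞 M) θ ≠ 0 := by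
        intro h0
        apply hq
        apply B.algHom_ext
        rw [← hθ]
        exact congrArg (algebraMap (𝓞 M) M) (sub_eq_zero.mp h0)
      refine Set.Finite.subset ((finite_dvd hne).preimage hPinj.injOn) fun v hv => ?_
      exact hv.2
  refine Set.Finite.subset (Set.finite_iUnion hfin) fun v hv => ?_
  by_contra hcon
  apply hv
  refine r1_eq_fx F (θ := θ) v (P v) (hP v) (Fr v) (hFr v) fun φ ψ hne hmem => ?_
  exact hcon (Set.mem_iUnion.mpr ⟨(φ, ψ), hne, hmem⟩)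

end Galois

end Pool.Agent.Lib.MP_bf61d2_nt.Perm
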