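import Pool.Agent.Lib.MP_bf61d2_nt.Perm.Frob

set_option autoImplicit false

/-!
Sums over the places of an extension as sums over the places of the base field: only the places
of degree one count, up to a bounded term.
-/

namespace Pool.Agent.Lib.MP_bf61d2_nt.Perm

open NumberField IsDedekindDomain Filter Topology

variable {K L : Type*} [Field K] [NumberField K] [Field L] [NumberField L] [Algebra K L]

lemma card_above' (v : HeightOneSpectrum (𝓞 K)) (S : Finset (HeightOneSpectrum (𝓞 L)))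
    (hS : ∀ w ∈ S, dn (K := K) w = v) : S.card ≤ Module.finrank (𝓞 K) (𝓞 L) := by
  have h1 := prod_nm_dvd v S hS
  have hv := one_lt_nm v
  have h2 : nm v ^ S.card ≤ ∏ w ∈ S, nm w := by
    rw [← Finset.prod_const]
    exact Finset.prod_le_prod' fun w hw => by rw [← hS w hw]; exact nm_dn_le w
  have h3 : nm v ^ S.card ≤ nm v ^ Module.finrank (𝓞 K) (𝓞 L) :=
    h2.trans (Nat.le_of_dvd (pow_pos (by omega) _) h1)
  exact (Nat.pow_le_pow_iff_right hv).mp h3

lemma finite_above' (v : HeightOneSpectrum (𝓞 K)) :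
    ((dn (K := K) (L := L)) ⁻¹' {v}).Finite := by
  by_contra hcon
  obtain ⟨S, hS, hcard⟩ := (Set.not_finite.mp hcon : Set.Infinite _).exists_subset_card_eq
    (Module.finrank (𝓞 K) (𝓞 L) + 1)
  have := card_above' (K := K) v S fun w hw => hS hw
  omega

lemma exists_fiber' (L : Type*) [Field L] [NumberField L] [Algebra K L]
    (v : HeightOneSpectrum (𝓞 K)) :
    ∃ T : Finset (HeightOneSpectrum (𝓞 L)), (∀ w, w ∈ T ↔ dn (K := K) w = v) ∧
      T.card ≤ Module.finrank (𝓞 K) (𝓞 L) := by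
  refine ⟨(finite_above' (L := L) v).toFinset, fun w => ?_, ?_⟩
  · rw [Set.Finite.mem_toFinset]; rfl
  · refine card_above' v _ fun w hw => ?_
    rw [Set.Finite.mem_toFinset] at hw
    exact hw

lemma r1_eq_card (v : HeightOneSpectrum (𝓞 K)) (T : Finset (HeightOneSpectrum (𝓞 L)))
    (hT : ∀ w, w ∈ T ↔ dn (K := K) w = v) : r1 L v = (T.filter fun w => nm w = nm v).card := by
  rw [r1, ← Fintype.card_coe, ← Nat.card_eq_fintype_card]
  refine Nat.card_congr (Equiv.subtypeEquivRight fun w => ?_)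
  rw [Finset.mem_filter, hT]

lemma r1_le (v : HeightOneSpectrum (𝓞 K)) : r1 L v ≤ Module.finrank (𝓞 K) (𝓞 L) := by
  obtain ⟨T, hT, hcard⟩ := exists_fiber' L v
  rw [r1_eq_card v T hT]
  exact (Finset.card_filter_le _ _).trans hcard

/-- Comparison of the sums. -/
theorem regroup {a : HeightOneSpectrum (𝓞 L) → ℝ} {b : HeightOneSpectrum (𝓞 K) → ℝ} {A : ℝ}
    (ha : ∀ w, |a w| ≤ A) (hb : ∀ v, |b v| ≤ A) (S : Finset (HeightOneSpectrum (𝓞 K)))
    (hab : ∀ w : HeightOneSpectrum (𝓞 L), dn (K := K) w ∉ S → nm w = nm (dn (K := K) w) →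
      a w = b (dn (K := K) w)) :
    ∃ C : ℝ, 0 ≤ C ∧ ∀ g : ℕ → ℝ, (∀ n, |g n| ≤ 1) → ∀ σ : ℝ, 1 < σ →
      |∑' w : HeightOneSpectrum (𝓞 L), wp σ w * (a w * g (nm w)) -
        ∑' v : HeightOneSpectrum (𝓞 K), wp σ v * (r1 L v * (b v * g (nm v)))| ≤ C := by
  classical
  have hA0 : 0 ≤ A := by
    by_contra hcon
    have h1 : IsEmpty (HeightOneSpectrum (𝓞 K)) := ⟨fun v => by
      have := (abs_nonneg _).trans (hb v)
      linarith⟩
    have h2 : ¬ (Nonempty (HeightOneSpectrum (𝓞 K))) := not_nonempty_iff.mpr h1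
    apply h2
    obtain ⟨M, hM⟩ := Ideal.exists_maximal (𝓞 K)
    exact ⟨⟨M, hM.isPrime, Ring.ne_bot_of_isMaximal_of_not_isField hM
      (RingOfIntegers.not_isField K)⟩⟩
  set n : ℕ := Module.finrank (𝓞 K) (𝓞 L) with hn
  have hsqC : 0 ≤ sqC K := tsum_nonneg fun v => by positivity
  refine ⟨n * A * sqC K + n * A * S.card, by positivity, ?_⟩
  intro g hg σ hσ
  have hag : ∀ w : HeightOneSpectrum (𝓞 L), |a w * g (nm w)| ≤ A := fun w => by
    rw [abs_mul]
    calc _ ≤ A * 1 := mul_le_mul (ha w) (hg _) (abs_nonneg _) hA0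
      _ = A := mul_one A
  have hbg : ∀ v : HeightOneSpectrum (𝓞 K), |b v * g (nm v)| ≤ A := fun v => by
    rw [abs_mul]
    calc _ ≤ A * 1 := mul_le_mul (hb v) (hg _) (abs_nonneg _) hA0
      _ = A := mul_one A
  have hbg' : ∀ v : HeightOneSpectrum (𝓞 K), |(r1 L v : ℝ) * (b v * g (nm v))| ≤ n * A := fun v => by
    rw [abs_mul, abs_of_nonneg (Nat.cast_nonneg _)]
    have : (r1 L v : ℝ) ≤ n := by exact_mod_cast r1_le v
    exact mul_le_mul this (hbg v) (abs_nonneg _) (Nat.cast_nonneg _)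
  have hsL : Summable fun w : HeightOneSpectrum (𝓞 L) => wp σ w * (a w * g (nm w)) :=
    summable_mul_bdd (summable_wp (K := L) hσ) (fun v => (wp_pos σ v).le) hag
  have hsK : Summable fun v : HeightOneSpectrum (𝓞 K) => wp σ v * (r1 L v * (b v * g (nm v))) :=
    summable_mul_bdd (summable_wp (K := K) hσ) (fun v => (wp_pos σ v).le) hbg'
  have hphi := hsL.hasSum.tsum_fiberwise (dn (K := K))
  have hdiff := hphi.sub hsK.hasSum
  have hg1 : HasSum (fun v : HeightOneSpectrum (𝓞 K) => n * A * (1 / (pr v : ℝ) ^ 2))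
      (n * A * sqC K) := summable_pr_sq.hasSum.mul_left _
  have hg2 : HasSum (fun v : HeightOneSpectrum (𝓞 K) => if v ∈ S then (n * A : ℝ) else 0)
      (n * A * S.card) := by
    have h3 : HasSum (fun v : HeightOneSpectrum (𝓞 K) => if v ∈ S then (n * A : ℝ) else 0)
      (∑ v ∈ S, if v ∈ S then (n * A : ℝ) else 0) :=
      hasSum_sum_of_ne_finset_zero fun v hv => if_neg hv
    have h4 : ∑ v ∈ S, (if v ∈ S then (n * A : ℝ) else 0) = n * A * S.card := by
      rw [Finset.sum_congr rfl fun v hv => if_pos hv, Finset.sum_const, nsmul_eq_mul, mul_comm]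
    rwa [h4] at h3
  have hgg := hg1.add hg2
  rw [← hdiff.tsum_eq, ← Real.norm_eq_abs]
  refine tsum_of_norm_bounded hgg fun v => ?_
  rw [Real.norm_eq_abs]
  obtain ⟨T, hT, hcard⟩ := exists_fiber' L v
  have hset : ((dn (K := K) (L := L)) ⁻¹' {v} : Set (HeightOneSpectrum (𝓞 L))) =
      (T : Set (HeightOneSpectrum (𝓞 L))) := by
    ext w
    rw [Set.mem_preimage, Set.mem_singleton_iff, Finset.mem_coe, hT]
  have hfib : ∑' w : ((dn (K := K) (L := L)) ⁻¹' {v} : Set (HeightOneSpectrum (𝓞 L))),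
      wp σ (w : HeightOneSpectrum (𝓞 L)) * (a w * g (nm (w : HeightOneSpectrum (𝓞 L)))) =
      ∑ w ∈ T, wp σ w * (a w * g (nm w)) := by
    rw [hset, Finset.tsum_subtype' T (fun w => wp σ w * (a w * g (nm w)))]
  rw [hfib]
  by_cases hv : v ∈ S
  · rw [if_pos hv]
    have h1 : |∑ w ∈ T, wp σ w * (a w * g (nm w))| ≤ n * A * (1 / 2) := by
      calc _ ≤ ∑ _w ∈ T, (1 / 2 * A : ℝ) := by
            refine (Finset.abs_sum_le_sum_abs _ _).trans (Finset.sum_le_sum fun w _ => ?_)
            rw [abs_mul, abs_of_pos (wp_pos σ w)]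
            exact mul_le_mul (wp_le_half hσ.le w) (hag w) (abs_nonneg _) (by norm_num)
        _ = T.card * (1 / 2 * A) := by rw [Finset.sum_const, nsmul_eq_mul]
        _ ≤ n * (1 / 2 * A) := by
            have : (T.card : ℝ) ≤ n := by exact_mod_cast hcard
            gcongr
        _ = _ := by ring
    have h2 : |wp σ v * (r1 L v * (b v * g (nm v)))| ≤ n * A * (1 / 2) := by
      rw [abs_mul, abs_of_pos (wp_pos σ v)]
      calc _ ≤ 1 / 2 * (n * A) :=
            mul_le_mul (wp_le_half hσ.le v) (hbg' v) (abs_nonneg _) (by norm_num)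
        _ = _ := by ring
    have h3 : 0 ≤ n * A * (1 / (pr v : ℝ) ^ 2) := by positivity
    refine (abs_sub _ _).trans ?_
    linarith
  · rw [if_neg hv, add_zero]
    have h1 : wp σ v * (r1 L v * (b v * g (nm v))) =
        ∑ w ∈ T.filter (fun w => nm w = nm v), wp σ w * (a w * g (nm w)) := by
      rw [r1_eq_card v T hT]
      have h2 : ∀ w ∈ T.filter (fun w => nm w = nm v), wp σ w * (a w * g (nm w)) =
          wp σ v * (b v * g (nm v)) := by
        intro w hw
        obtain ⟨hw1, hw2⟩ := Finset.mem_filter.mp hw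
        have hwv : dn (K := K) w = v := (hT w).mp hw1
        have h3 := hab w (by rw [hwv]; exact hv) (by rw [hwv]; exact hw2)
        rw [h3, hwv, wp, wp, hw2]
      rw [Finset.sum_congr rfl h2, Finset.sum_const, nsmul_eq_mul]
      ring
    rw [h1, ← Finset.sum_filter_add_sum_filter_not T (fun w => nm w = nm v), add_sub_cancel_left]
    calc _ ≤ ∑ _w ∈ T.filter (fun w => ¬ nm w = nm v), (1 / (pr v : ℝ) ^ 2 * A) := by
          refine (Finset.abs_sum_le_sum_abs _ _).trans (Finset.sum_le_sum fun w hw => ?_)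
          obtain ⟨hw1, hw2⟩ := Finset.mem_filter.mp hw
          have hwv : dn (K := K) w = v := (hT w).mp hw1
          have h7 := sq_nm_dn_le w (by rw [hwv]; exact hw2)
          rw [hwv] at h7
          have hp0 : (0 : ℝ) < pr v := by exact_mod_cast (pr_prime v).pos
          have h8 : (pr v : ℝ) ^ 2 ≤ nm w := by
            have : pr v ^ 2 ≤ nm w := (Nat.pow_le_pow_left (pr_le_nm v) 2).trans h7
            exact_mod_cast this
          have h9 : (1 : ℝ) ≤ nm w := by exact_mod_cast (one_lt_nm w).le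
          have h10 : wp σ w ≤ 1 / (pr v : ℝ) ^ 2 := by
            calc wp σ w ≤ (nm w : ℝ) ^ (-1 : ℝ) :=
                  Real.rpow_le_rpow_of_exponent_le h9 (by linarith)
              _ = 1 / nm w := by rw [Real.rpow_neg_one, one_div]
              _ ≤ _ := one_div_le_one_div_of_le (by positivity) h8
          rw [abs_mul, abs_of_pos (wp_pos σ w)]
          exact mul_le_mul h10 (hag w) (abs_nonneg _) (by positivity)
      _ = (T.filter (fun w => ¬ nm w = nm v)).card * (1 / (pr v : ℝ) ^ 2 * A) := by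
          rw [Finset.sum_const, nsmul_eq_mul]
      _ ≤ n * (1 / (pr v : ℝ) ^ 2 * A) := by
          have : ((T.filter (fun w => ¬ nm w = nm v)).card : ℝ) ≤ n := by
            exact_mod_cast (Finset.card_filter_le _ _).trans hcard
          gcongr
      _ = _ := by ring

end Pool.Agent.Lib.MP_bf61d2_nt.Perm
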