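import Pool.Agent.Lib.MP_bf61d2_nt.Perm.Defs

set_option autoImplicit false

/-!
Cosine polynomials: uniform approximation of the absolute value of a cosine polynomial by cosine
polynomials, and mean values.
-/

namespace Pool.Agent.Lib.MP_bf61d2_nt.Perm
open Filter Topology

/-- The function `u ↦ cos (t u)`. -/
noncomputable def Trig.c (t : ℝ) : ℝ → ℝ := fun u => Real.cos (t * u)

/-- Cosine polynomials. -/
noncomputable def Trig.W : Submodule ℝ (ℝ → ℝ) := Submodule.span ℝ (Set.range Trig.c)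

theorem Trig.c_mem (t : ℝ) : Trig.c t ∈ Trig.W := Submodule.subset_span ⟨t, rfl⟩

theorem Trig.one_mem : (1 : ℝ → ℝ) ∈ Trig.W := by
  have h : (1 : ℝ → ℝ) = Trig.c 0 := by
    funext u; simp [Trig.c]
  rw [h]; exact Trig.c_mem 0

theorem Trig.c_mul (s t : ℝ) : Trig.c s * Trig.c t =
    (1 / 2 : ℝ) • Trig.c (s + t) + (1 / 2 : ℝ) • Trig.c (s - t) := by
  funext u
  simp only [Trig.c, Pi.mul_apply, Pi.add_apply, Pi.smul_apply, smul_eq_mul, add_mul, sub_mul,
    Real.cos_add, Real.cos_sub]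
  ring

theorem Trig.mul_mem (f g : ℝ → ℝ) (hf : f ∈ Trig.W) (hg : g ∈ Trig.W) : f * g ∈ Trig.W := by
  have h : Trig.W * Trig.W ≤ Trig.W := by
    unfold Trig.W
    rw [Submodule.span_mul_span, Submodule.span_le]
    rintro _ ⟨_, ⟨s, rfl⟩, _, ⟨t, rfl⟩, rfl⟩
    show Trig.c s * Trig.c t ∈ Trig.W
    rw [Trig.c_mul]
    exact Submodule.add_mem _ (Submodule.smul_mem _ _ (Trig.c_mem _))
      (Submodule.smul_mem _ _ (Trig.c_mem _))
  exact h (Submodule.mul_mem_mul hf hg)

/-- Cosine polynomials as a subalgebra. -/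
noncomputable def Trig.A : Subalgebra ℝ (ℝ → ℝ) :=
  Trig.W.toSubalgebra Trig.one_mem Trig.mul_mem

/-- C. Uniform approximation of the absolute value of a cosine polynomial by cosine polynomials. -/
theorem exists_trig_approx {n : ℕ} (t b : Fin n → ℝ) {ε : ℝ} (hε : 0 < ε) :
    ∃ (N : ℕ) (τ β : Fin N → ℝ), ∀ u : ℝ,
      |(|∑ j, b j * Real.cos (t j * u)|) - ∑ k, β k * Real.cos (τ k * u)| ≤ ε := by
  set S : ℝ → ℝ := fun u => ∑ j, b j * Real.cos (t j * u) with hS
  have hSW : S ∈ Trig.A := by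
    show S ∈ Trig.W
    have h : S = ∑ j, b j • Trig.c (t j) := by
      funext u
      simp [hS, Trig.c]
    rw [h]
    exact Submodule.sum_mem _ fun j _ => Submodule.smul_mem _ _ (Trig.c_mem _)
  obtain ⟨p, hp⟩ := exists_polynomial_near_of_continuousOn (-∑ j, |b j|) (∑ j, |b j|)
    (fun x => |x|) (continuous_abs.continuousOn) ε hε
  have hb : ∀ u, S u ∈ Set.Icc (-∑ j, |b j|) (∑ j, |b j|) := by
    intro u
    rw [Set.mem_Icc, ← abs_le]
    refine (Finset.abs_sum_le_sum_abs _ _).trans (Finset.sum_le_sum fun j _ => ?_)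
    rw [abs_mul]
    exact mul_le_of_le_one_right (abs_nonneg _) (Real.abs_cos_le_one _)
  have hmem : Polynomial.aeval S p ∈ Trig.W := by
    have h1 : Polynomial.aeval S p ∈ Algebra.adjoin ℝ {S} :=
      Polynomial.aeval_mem_adjoin_singleton ℝ S
    have h2 : Algebra.adjoin ℝ {S} ≤ Trig.A := Algebra.adjoin_le (by
      rintro x rfl
      exact hSW)
    exact h2 h1
  unfold Trig.W at hmem
  rw [Submodule.mem_span_set'] at hmem
  obtain ⟨N, β, g, hg⟩ := hmem
  choose τ hτ using fun k => (g k).2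
  refine ⟨N, τ, β, fun u => ?_⟩
  have h1 : ∑ k, β k * Real.cos (τ k * u) = p.eval (S u) := by
    have h2 := congrFun hg u
    rw [Polynomial.aeval_fn_apply, Polynomial.coe_aeval_eq_eval] at h2
    rw [← h2, Finset.sum_apply]
    refine Finset.sum_congr rfl fun k _ => ?_
    rw [Pi.smul_apply, ← hτ k]
    rfl
  rw [h1, abs_sub_comm]
  exact (hp _ (hb u)).le

theorem Trig.tendsto_one (τ β : ℝ) :
    Tendsto (fun X : ℝ => X⁻¹ * ∫ u in (0 : ℝ)..X, β * Real.cos (τ * u)) atTop
      (𝓝 (if τ = 0 then β else 0)) := by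
  split_ifs with h
  · subst h
    refine Tendsto.congr' ?_ tendsto_const_nhds
    filter_upwards [eventually_gt_atTop (0 : ℝ)] with X hX
    simp [hX.ne']
  · have h1 : ∀ X : ℝ, ∫ u in (0 : ℝ)..X, β * Real.cos (τ * u) = β * (τ⁻¹ * Real.sin (τ * X)) := by
      intro X
      rw [intervalIntegral.integral_const_mul,
        intervalIntegral.integral_comp_mul_left (fun x => Real.cos x) h, integral_cos]
      simp
    have h2 : Tendsto (fun X : ℝ => X⁻¹ * (β * (τ⁻¹ * Real.sin (τ * X)))) atTop (𝓝 0) := by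
      refine Tendsto.zero_mul_isBoundedUnder_le tendsto_inv_atTop_zero ?_
      refine ⟨|β| * |τ⁻¹|, ?_⟩
      rw [eventually_map]
      filter_upwards with X
      simp only [Function.comp, Real.norm_eq_abs, abs_mul]
      rw [← mul_assoc]
      exact mul_le_of_le_one_right (by positivity) (Real.abs_sin_le_one _)
    exact h2.congr fun X => by rw [h1]

/-- D. Mean values of cosine polynomials. -/
theorem tendsto_mean_trig {N : ℕ} (τ β : Fin N → ℝ) :
    Tendsto (fun X : ℝ => X⁻¹ * ∫ u in (0 : ℝ)..X, ∑ k, β k * Real.cos (τ k * u)) atTop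
      (𝓝 (∑ k, if τ k = 0 then β k else 0)) := by
  have h := tendsto_finsetSum Finset.univ fun k _ => Trig.tendsto_one (τ k) (β k)
  refine h.congr fun X => ?_
  rw [intervalIntegral.integral_finsetSum, Finset.mul_sum]
  intro k _
  exact Continuous.intervalIntegrable (by fun_prop) _ _

end Pool.Agent.Lib.MP_bf61d2_nt.Perm
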